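import Pool.Agent.H78.DP.Transfer

set_option autoImplicit false

/-!
Clusters: nested frames, and how they change along a walk.
-/

namespace Pool.Agent.H78.DP

/-- The cluster over the base `u` (precision `B`, first multiplier `b`) containing the vertex
`v = Y (u + T)`; `p` (resp. `q`) is the multiplier of the last move if it was an up (resp. down)
move. -/
inductive Cl : ℕ → ℕ → ℕ → ℕ → ℚ → ℚ → ℕ → ℕ → Prop
  | top {u B b v c : ℕ} {y τ : ℚ} (hB : Base u B b) (hS : St u b y τ c v) :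
      Cl u B b v y τ (if c = 0 then b else 0) c
  | push {u B b m c d v p q : ℕ} {y τ Y T : ℚ} (hB : Base u B b) (hS : St u b y τ c m)
      (hd : d ≠ c) (hC : Cl m (max c d) d v Y T p q) :
      Cl u B b v (y * Y) (τ + T / y) p q

lemma Cl.base {u B b v : ℕ} {Y T : ℚ} {p q : ℕ} (h : Cl u B b v Y T p q) : Base u B b := by
  cases h with
  | top hB _ => exact hB
  | push hB _ _ _ => exact hB

lemma b1 (b B' : ℕ) (hb : B' ^ 3 ≤ b) (P P' : ℕ) (hP : P ≤ b * B') (hP' : P' ≤ B' ^ 2) :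
    P * P' ≤ b ^ 2 := by
  calc P * P' ≤ (b * B') * B' ^ 2 := Nat.mul_le_mul hP hP'
    _ = b * B' ^ 3 := by ring
    _ ≤ b * b := Nat.mul_le_mul_left b hb
    _ = b ^ 2 := by ring

lemma b2 (b B' : ℕ) (hb : B' ^ 3 ≤ b) (Q Q' : ℕ) (hQ : Q ≤ B' ^ 2) (hQ' : Q' ≤ B') :
    Q * Q' ≤ b := by
  calc Q * Q' ≤ B' ^ 2 * B' := Nat.mul_le_mul hQ hQ'
    _ = B' ^ 3 := by ring
    _ ≤ b := hb

/-- `|τ + T'/y - b| y ≤ c + d + 3/8` -/
lemma b3 (b c d τ T' y : ℚ) (hy : 3 ≤ y) (hd : 0 ≤ d) (h1 : |τ - b| * y ≤ c + 1 / 8)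
    (h2 : |T' - d| ≤ 1 / 4) : |τ + T' / y - b| * y ≤ c + d + 3 / 8 := by
  have hy0 : 0 < y := by linarith
  have h3 : |τ + T' / y - b| * y = |(τ - b) * y + T'| := by
    rw [← abs_of_pos hy0, ← abs_mul, abs_of_pos hy0]
    congr 1
    field_simp
    ring
  rw [h3]
  have h4 : |(τ - b) * y + T'| ≤ |(τ - b) * y| + |T'| := abs_add_le _ _
  rw [abs_mul, abs_of_pos hy0] at h4
  have h5 : |T'| ≤ d + 1 / 4 := by
    have := abs_le.mp h2
    rw [abs_le]
    constructor <;> linarith [this.1, this.2]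
  linarith

lemma b4 (θ c d M y : ℚ) (hM : 3 ≤ M) (hc : c ≤ M) (hd : d ≤ M)
    (hy : 3 / 10 * M ^ 10 ≤ y) (h : |θ| * y ≤ c + d + 3 / 8) : |θ| ≤ 1 / 4 := by
  have h1 : (3 : ℚ) ^ 9 ≤ M ^ 9 := pow_le_pow_left₀ (by norm_num) hM 9
  norm_num at h1
  have h2 : 19683 * M ≤ M ^ 10 := by
    calc 19683 * M ≤ M ^ 9 * M := mul_le_mul_of_nonneg_right h1 (by linarith)
      _ = _ := by ring
  by_contra hcon
  push Not at hcon
  have h3 : 1 / 4 * y ≤ |θ| * y := mul_le_mul_of_nonneg_right hcon.le (by linarith)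
  linarith

structure Bd (u b v : ℕ) (Y T : ℚ) : Prop where
  hv : (v : ℚ) = Y * (u + T)
  hT : |T - b| ≤ 1 / 4
  hY : 3 ≤ Y
  hPQ : ∃ P Q : ℕ, 0 < P ∧ 0 < Q ∧ Y = P / Q ∧ P ≤ b ^ 2 ∧ Q ≤ b

/-- numerical bounds for a vertex in a cluster -/
lemma Cl.bounds {u B b v : ℕ} {Y T : ℚ} {p q : ℕ} (h : Cl u B b v Y T p q) :
    Bd u b v Y T := by
  induction h with
  | top hB hS =>
    obtain ⟨hcb, hy3, hT, _, P, Q, hP, hQ, hPb, hQb, hy, hPQ⟩ := hS.bounds hB.b3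
    exact ⟨hS.hm, hT, hy3, P, Q, hP, hQ, hy, hPb, hQb⟩
  | @push u B b m c d v p q y τ Y T hB hS hd hC ih =>
    obtain ⟨hcb, hy3, hT, hTy, P, Q, hP, hQ, hPb, hQb, hy, hPQ⟩ := hS.bounds hB.b3
    obtain ⟨hv, hT', hY', P', Q', hP', hQ', hYe, hP'd, hQ'd⟩ := ih
    have hBm := hC.base
    have hd3 := hBm.b3
    have hcM : c ≤ max c d := le_max_left _ _
    have hdM : d ≤ max c d := le_max_right _ _
    have hM3 : 3 ≤ max c d := hd3.trans hdM
    obtain ⟨hM12, hyM⟩ := transfer hB hS hM3 hcM hBm.near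
    obtain ⟨hPM, hQM⟩ := hPQ (max c d) (by omega) hcM
    have hMb := tr7 _ _ hM3 hM12
    have hy0 : 0 < y := by linarith
    have hM3' : (3 : ℚ) ≤ (max c d : ℕ) := by exact_mod_cast hM3
    have hcM' : (c : ℚ) ≤ (max c d : ℕ) := by exact_mod_cast hcM
    have hdM' : (d : ℚ) ≤ (max c d : ℕ) := by exact_mod_cast hdM
    refine ⟨?_, ?_, ?_, P * P', Q * Q', Nat.mul_pos hP hP', Nat.mul_pos hQ hQ', ?_, ?_, ?_⟩
    · rw [hv, hS.hm]
      field_simp
      ring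
    · exact b4 _ c d (max c d : ℕ) y hM3' hcM' hdM' hyM
        (b3 b c d τ T y hy3 (Nat.cast_nonneg d) hTy hT')
    · nlinarith
    · rw [hy, hYe]
      push_cast
      rw [div_mul_div_comm]
    · exact b1 b (max c d) hMb P P' hPM (hP'd.trans (Nat.pow_le_pow_left hdM 2))
    · exact b2 b (max c d) hMb Q Q' hQM (hQ'd.trans hdM)

lemma notP2_mul {a n : ℕ} (hap : ¬ IsP2 a) : ¬ IsP2 (a * n) := by
  rintro ⟨k, hk⟩
  apply hap
  have h1 : a ∣ 2 ^ k := ⟨n, hk.symm⟩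
  obtain ⟨i, _, hi⟩ := (Nat.dvd_prime_pow Nat.prime_two).mp h1
  exact ⟨i, hi⟩

lemma ne_zpow_of_notP2 {a : ℕ} (hap : ¬ IsP2 a) (k : ℤ) : (a : ℚ) ≠ 2 ^ k := by
  intro h
  rcases Int.eq_nat_or_neg k with ⟨n, rfl | rfl⟩
  · rw [zpow_natCast] at h
    exact hap ⟨n, by exact_mod_cast h⟩
  · rw [zpow_neg, zpow_natCast] at h
    have h1 : a * 2 ^ n = 1 := by
      have h2 : (a : ℚ) * 2 ^ n = 1 := by
        rw [h]; field_simp
      exact_mod_cast h2
    have h3 : a = 1 := Nat.eq_one_of_mul_eq_one_right h1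
    exact hap ⟨0, by rw [h3]; norm_num⟩

/-- going up keeps us in the cluster -/
lemma Cl.up {u B b v : ℕ} {Y T : ℚ} {p q : ℕ} (h : Cl u B b v Y T p q) {a z : ℕ}
    (hE : E a v z) (haq : a ≠ q) : Cl u B b z (Y * a) (T + a / Y) a 0 := by
  induction h with
  | @top u B b v c y τ hB hS =>
    have ha3 := three_le hE.ha hE.hap
    have hnear : Near v ((max c a) ^ 12) := by
      rcases le_total c a with hca | hca
      · rw [max_eq_right hca]; exact hE.near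
      · rw [max_eq_left hca]
        rcases hS.alt with ⟨h0, _, _⟩ | ⟨_, _, hn, _⟩
        · omega
        · exact hn
    have hBv : Base v (max c a) a :=
      ⟨hE.hw, hE.hwp, hE.ha, hE.hap, le_max_right _ _, hnear, hE.val⟩
    have hSz : St v a (a : ℚ) (a : ℚ) 0 z := by
      refine ⟨?_, ?_, ?_, ne_zpow_of_notP2 hE.hap, Or.inl ⟨rfl, rfl, rfl⟩⟩
      · rw [hE.hz]; push_cast; ring
      · rw [hE.hz]; exact Nat.mul_pos hE.ha (by omega)
      · rw [hE.hz]; exact notP2_mul hE.hap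
    have h1 := Cl.top hBv hSz
    simp only [if_true] at h1
    exact Cl.push hB hS haq h1
  | @push u B b m c d v p q y τ Y T hB hS hd hC ih =>
    have h1 := Cl.push hB hS hd (ih hE haq)
    have hy3 := (hS.bounds hB.b3).2.1
    have hY3 := hC.bounds.hY
    have e1 : y * (Y * a) = y * Y * a := by ring
    have e2 : τ + (T + a / Y) / y = τ + T / y + a / (y * Y) := by
      field_simp
      ring
    rw [e1, e2] at h1
    exact h1

end Pool.Agent.H78.DP
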