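import Mathlib

set_option autoImplicit false

/-!
Arithmetic of the pairs `(a, b)` with `b` extremely close to a power of two.
-/

namespace Pool.Agent.H78.DP

/-- `n` is a power of two -/
def IsP2 (n : ℕ) : Prop := ∃ k : ℕ, n = 2 ^ k

/-- `w` is within relative distance `1/N` of a power of two -/
def Near (w N : ℕ) : Prop := ∃ s : ℕ, |(w : ℚ) - 2 ^ s| * N ≤ 2 ^ s

/-- the 2-adic valuation of `w` is larger than that of `a` -/
def Val (a w : ℕ) : Prop := ∃ i o x : ℕ, a = 2 ^ i * (2 * o + 1) ∧ w = 2 ^ (i + 1) * x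

/-- the edge from `w` up to `z = a (w + a)` -/
structure E (a w z : ℕ) : Prop where
  ha : 0 < a
  hap : ¬ IsP2 a
  hw : 0 < w
  hwp : ¬ IsP2 w
  near : Near w (a ^ 12)
  val : Val a w
  hz : z = a * (w + a)

lemma three_le {a : ℕ} (h : 0 < a) (hp : ¬ IsP2 a) : 3 ≤ a := by
  by_contra hc
  have : a = 1 ∨ a = 2 := by omega
  rcases this with rfl | rfl
  · exact hp ⟨0, by norm_num⟩
  · exact hp ⟨1, by norm_num⟩

lemma near_data {w N : ℕ} (h : Near w N) (hp : ¬ IsP2 w) :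
    ∃ s : ℕ, |(w : ℚ) - 2 ^ s| * N ≤ 2 ^ s ∧ (N : ℚ) ≤ 2 ^ s := by
  obtain ⟨s, hs⟩ := h
  refine ⟨s, hs, ?_⟩
  have h1 : (1 : ℚ) ≤ |(w : ℚ) - 2 ^ s| := by
    have hne : (w : ℤ) - 2 ^ s ≠ 0 := by
      intro h0
      apply hp
      refine ⟨s, ?_⟩
      have : (w : ℤ) = 2 ^ s := by linarith
      exact_mod_cast this
    have h2 : (1 : ℤ) ≤ |(w : ℤ) - 2 ^ s| := Int.one_le_abs hne
    exact_mod_cast h2
  have h3 : (0 : ℚ) ≤ N := Nat.cast_nonneg N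
  nlinarith

lemma exists_beta (u L : ℕ) (N T t : ℚ) (hN : 0 < N) (h1 : |(u : ℚ) - 2 ^ L| * N ≤ 2 ^ L)
    (h2 : N ≤ 2 ^ L) (hT : |T| ≤ t) :
    ∃ β : ℚ, (u : ℚ) + T = 2 ^ L * (1 + β) ∧ |β| * N ≤ 1 + t := by
  have hL : (0 : ℚ) < 2 ^ L := by positivity
  refine ⟨((u : ℚ) + T - 2 ^ L) / 2 ^ L, ?_, ?_⟩
  · field_simp
    ring
  · rw [abs_div, abs_of_pos hL, div_mul_eq_mul_div, div_le_iff₀ hL]
    have h3 : |(u : ℚ) + T - 2 ^ L| ≤ |(u : ℚ) - 2 ^ L| + |T| := by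
      have : (u : ℚ) + T - 2 ^ L = ((u : ℚ) - 2 ^ L) + T := by ring
      rw [this]
      exact abs_add_le _ _
    have h4 : (0 : ℚ) ≤ |T| := abs_nonneg T
    have h5 : |T| * N ≤ t * 2 ^ L := by
      calc |T| * N ≤ t * N := by nlinarith
        _ ≤ t * 2 ^ L := by nlinarith
    nlinarith

/-- the key comparison of two fractions with powers of two -/
lemma core (P Q s L : ℕ) (hP : 0 < P) (hQ : 0 < Q) (α β : ℚ) (hα : |α| ≤ 1 / 4)
    (hβ : |β| ≤ 1 / 4) (h : (Q : ℚ) * 2 ^ s * (1 + α) = P * 2 ^ L * (1 + β))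
    (hne : (Q : ℚ) * 2 ^ s ≠ P * 2 ^ L) :
    (L ≤ s ∧ (1 : ℚ) ≤ P * (|β| + 2 * |α|) ∧ (2 : ℚ) ^ L ≤ Q * 2 ^ s * (2 * |β| + |α|)) ∨
      (s < L ∧ (1 : ℚ) ≤ Q * (2 * |β| + |α|)) := by
  have hP' : (0 : ℚ) < P := by exact_mod_cast hP
  have hQ' : (0 : ℚ) < Q := by exact_mod_cast hQ
  have hs : (0 : ℚ) < 2 ^ s := by positivity
  have hL : (0 : ℚ) < 2 ^ L := by positivity
  obtain ⟨A, hA⟩ : ∃ A : ℚ, A = (Q : ℚ) * 2 ^ s := ⟨_, rfl⟩
  obtain ⟨C, hC⟩ : ∃ C : ℚ, C = (P : ℚ) * 2 ^ L := ⟨_, rfl⟩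
  have hA0 : 0 < A := by rw [hA]; positivity
  have hC0 : 0 < C := by rw [hC]; positivity
  rw [← hA, ← hC] at h hne
  have hα1 := (abs_le.mp hα).1
  have hα2 := (abs_le.mp hα).2
  have hβ1 := (abs_le.mp hβ).1
  have hβ2 := (abs_le.mp hβ).2
  have hAC : A ≤ 2 * C := by nlinarith
  have hCA : C ≤ 2 * A := by nlinarith
  have hdiff : |A - C| ≤ C * |β| + A * |α| := by
    have h1 : A - C = C * β + -(A * α) := by linarith
    rw [h1]
    refine (abs_add_le _ _).trans ?_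
    rw [abs_neg, abs_mul, abs_mul, abs_of_pos hA0, abs_of_pos hC0]
  have hb0 : 0 ≤ |β| := abs_nonneg β
  have ha0 : 0 ≤ |α| := abs_nonneg α
  rcases le_or_gt L s with hLs | hLs
  · left
    have hint : (2 : ℚ) ^ L ≤ |A - C| := by
      obtain ⟨d, rfl⟩ := Nat.exists_eq_add_of_le hLs
      have h1 : A - C = 2 ^ L * (((Q : ℤ) * 2 ^ d - P : ℤ) : ℚ) := by
        rw [hA, hC]; push_cast; ring
      have h2 : ((Q : ℤ) * 2 ^ d - P : ℤ) ≠ 0 := by
        intro h0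
        apply hne
        have : A - C = 0 := by rw [h1, h0]; simp
        linarith
      have h3 : (1 : ℤ) ≤ |((Q : ℤ) * 2 ^ d - P : ℤ)| := Int.one_le_abs h2
      have h4 : (1 : ℚ) ≤ |(((Q : ℤ) * 2 ^ d - P : ℤ) : ℚ)| := by exact_mod_cast h3
      rw [h1, abs_mul, abs_of_pos hL]
      nlinarith
    refine ⟨hLs, ?_, ?_⟩
    · have h5 : (2 : ℚ) ^ L ≤ C * |β| + 2 * C * |α| := by
        have : A * |α| ≤ 2 * C * |α| := mul_le_mul_of_nonneg_right hAC ha0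
        linarith
      have h6 : C * |β| + 2 * C * |α| = 2 ^ L * (P * (|β| + 2 * |α|)) := by
        rw [hC]; ring
      rw [h6] at h5
      by_contra hc
      push Not at hc
      nlinarith
    · have h5 : C * |β| ≤ 2 * A * |β| := mul_le_mul_of_nonneg_right hCA hb0
      rw [← hA]
      nlinarith
  · right
    have hint : (2 : ℚ) ^ s ≤ |A - C| := by
      obtain ⟨d, rfl⟩ := Nat.exists_eq_add_of_le hLs.le
      have h1 : A - C = 2 ^ s * (((Q : ℤ) - P * 2 ^ d : ℤ) : ℚ) := by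
        rw [hA, hC]; push_cast; ring
      have h2 : ((Q : ℤ) - P * 2 ^ d : ℤ) ≠ 0 := by
        intro h0
        apply hne
        have : A - C = 0 := by rw [h1, h0]; simp
        linarith
      have h3 : (1 : ℤ) ≤ |((Q : ℤ) - P * 2 ^ d : ℤ)| := Int.one_le_abs h2
      have h4 : (1 : ℚ) ≤ |(((Q : ℤ) - P * 2 ^ d : ℤ) : ℚ)| := by exact_mod_cast h3
      rw [h1, abs_mul, abs_of_pos hs]
      nlinarith
    refine ⟨hLs, ?_⟩
    have h5 : C * |β| ≤ 2 * A * |β| := mul_le_mul_of_nonneg_right hCA hb0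
    have h6 : (2 : ℚ) ^ s ≤ 2 ^ s * (Q * (2 * |β| + |α|)) := by
      have : 2 * A * |β| + A * |α| = 2 ^ s * (Q * (2 * |β| + |α|)) := by rw [hA]; ring
      linarith
    by_contra hc
    push Not at hc
    nlinarith

end Pool.Agent.H78.DP
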