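import Pool.Agent.H78.DP.Cluster

set_option autoImplicit false

/-!
Down moves inside a cluster.
-/

namespace Pool.Agent.H78.DP

lemma odd_pow_aux (i x j y : ℕ) (h : 2 ^ i * (2 * x + 1) = 2 ^ j * (2 * y + 1)) : ¬ i < j := by
  intro hij
  obtain ⟨d, rfl⟩ := Nat.exists_eq_add_of_lt hij
  have h1 : 2 ^ i * (2 * x + 1) = 2 ^ i * (2 * (2 ^ d * (2 * y + 1))) := by
    rw [h]; ring
  have h2 : 2 * x + 1 = 2 * (2 ^ d * (2 * y + 1)) :=
    Nat.eq_of_mul_eq_mul_left (by positivity) h1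
  omega

lemma odd_pow (i x j y : ℕ) (h : 2 ^ i * (2 * x + 1) = 2 ^ j * (2 * y + 1)) : i = j := by
  have h1 := odd_pow_aux i x j y h
  have h2 := odd_pow_aux j y i x h.symm
  omega

/-- two up moves to the same vertex whose multipliers differ by a power of two coincide -/
lemma val_eq {b u e v' : ℕ} (h1 : Val b u) (h2 : Val e v') (he : 0 < e)
    (h : b * (u + b) = e * (v' + e)) (k : ℤ) (hk : (b : ℚ) / e = 2 ^ k) : b = e := by
  obtain ⟨i, o, x, rfl, rfl⟩ := h1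
  obtain ⟨j, o', x', rfl, rfl⟩ := h2
  have e1 : 2 ^ i * (2 * o + 1) * (2 ^ (i + 1) * x + 2 ^ i * (2 * o + 1)) =
      2 ^ (2 * i) * (2 * (2 * o * (x + o) + (2 * o + x)) + 1) := by ring
  have e2 : 2 ^ j * (2 * o' + 1) * (2 ^ (j + 1) * x' + 2 ^ j * (2 * o' + 1)) =
      2 ^ (2 * j) * (2 * (2 * o' * (x' + o') + (2 * o' + x')) + 1) := by ring
  rw [e1, e2] at h
  have h3 := odd_pow _ _ _ _ h
  have h4 : i = j := by omega
  subst h4
  have he' : (0 : ℚ) < ((2 ^ i * (2 * o' + 1) : ℕ) : ℚ) := by exact_mod_cast he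
  have h5 : (2 * (o : ℚ) + 1) = 2 ^ k * (2 * o' + 1) := by
    rw [div_eq_iff he'.ne'] at hk
    push_cast at hk
    have h6 : (2 : ℚ) ^ i * (2 * o + 1) = 2 ^ i * (2 ^ k * (2 * o' + 1)) := by
      rw [hk]; ring
    exact mul_left_cancel₀ (by positivity) h6
  have h7 : 2 * o + 1 = 2 * o' + 1 := by
    rcases Int.eq_nat_or_neg k with ⟨n, rfl | rfl⟩
    · rw [zpow_natCast] at h5
      have h8 : 2 ^ 0 * (2 * o + 1) = 2 ^ n * (2 * o' + 1) := by
        rw [pow_zero, one_mul]; exact_mod_cast h5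
      have h9 := odd_pow _ _ _ _ h8
      rw [← h9] at h8
      simpa using h8
    · rw [zpow_neg, zpow_natCast] at h5
      have h8 : 2 ^ n * (2 * o + 1) = 2 ^ 0 * (2 * o' + 1) := by
        have : (2 : ℚ) ^ n * (2 * o + 1) = (2 * o' + 1) := by
          rw [h5]; field_simp
        rw [pow_zero, one_mul]; exact_mod_cast this
      have h9 := odd_pow _ _ _ _ h8
      rw [h9] at h8
      simpa using h8
  rw [h7]

/-- going down from a vertex that is close to a power of two needs a large multiplier -/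
lemma trivial_exit {e v' v c : ℕ} (hE : E e v' v) (hc : 3 ≤ c) (hn : Near v (c ^ 12)) :
    (c : ℚ) ^ 12 ≤ 4 * e := by
  obtain ⟨s, α, hα, hαe, hα4⟩ := hE.alpha
  obtain ⟨t, ht⟩ := hn
  have ht0 : (0 : ℚ) < 2 ^ t := by positivity
  have hc3 : (3 : ℚ) ≤ c := by exact_mod_cast hc
  have he3 : (3 : ℚ) ≤ e := by exact_mod_cast three_le hE.ha hE.hap
  obtain ⟨γ, hγ, hγc⟩ : ∃ γ : ℚ, (v : ℚ) = 2 ^ t * (1 + γ) ∧ |γ| * (c : ℚ) ^ 12 ≤ 1 := by
    refine ⟨((v : ℚ) - 2 ^ t) / 2 ^ t, by field_simp; ring, ?_⟩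
    rw [abs_div, abs_of_pos ht0, div_mul_eq_mul_div, div_le_one ht0]
    push_cast at ht
    exact ht
  have hx0 : 0 ≤ |α| := abs_nonneg _
  have hy0 : 0 ≤ |γ| := abs_nonneg _
  have h12 : (3 : ℚ) ^ 12 ≤ (c : ℚ) ^ 12 := pow_ge hc3 12
  norm_num at h12
  have hγ4 : |γ| * 531441 ≤ 1 := (mul_le_mul_of_nonneg_left h12 hy0).trans hγc
  have h10 : (3 : ℚ) ^ 10 ≤ (e : ℚ) ^ 10 := pow_ge he3 10
  norm_num at h10
  have hea : (e * |α|) * 59049 ≤ 4 / 3 := by
    calc (e * |α|) * 59049 ≤ (e * |α|) * (e : ℚ) ^ 10 :=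
          mul_le_mul_of_nonneg_left h10 (by positivity)
      _ = |α| * (e : ℚ) ^ 11 := by ring
      _ ≤ _ := hαe
  have heq : (e : ℚ) * 2 ^ s * (1 + α) = ((1 : ℕ) : ℚ) * 2 ^ t * (1 + γ) := by
    push_cast
    rw [one_mul, ← hγ, hα]; ring
  have hne : (e : ℚ) * 2 ^ s ≠ ((1 : ℕ) : ℚ) * 2 ^ t := by
    intro h0
    apply ne_zpow_of_notP2 hE.hap ((t : ℤ) - s)
    rw [zpow_sub₀ (by norm_num), zpow_natCast, zpow_natCast, eq_div_iff (by positivity)]
    push_cast at h0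
    linarith
  rcases core 1 e s t one_pos hE.ha α γ hα4 (by linarith) heq hne with
    ⟨_, h1, _⟩ | ⟨_, h1⟩
  · exfalso
    push_cast at h1
    have : |α| ≤ e * |α| := by nlinarith
    linarith
  · have h2 : 1 / 2 ≤ 2 * e * |γ| := by linarith
    have h3 : 1 / 2 * (c : ℚ) ^ 12 ≤ 2 * e * |γ| * (c : ℚ) ^ 12 :=
      mul_le_mul_of_nonneg_right h2 (by positivity)
    have h4 : 2 * e * |γ| * (c : ℚ) ^ 12 ≤ 2 * e := by
      calc 2 * (e : ℚ) * |γ| * (c : ℚ) ^ 12 = 2 * (e : ℚ) * (|γ| * (c : ℚ) ^ 12) := by ring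
        _ ≤ 2 * (e : ℚ) * 1 := mul_le_mul_of_nonneg_left hγc (by positivity)
        _ = _ := by ring
    linarith

/-- a down move to a new current minimum -/
lemma new_state {u B b : ℕ} (hB : Base u B b) {Y T : ℚ} {P Q : ℕ} (hP : 0 < P) (hQ : 0 < Q)
    (hY : Y = P / Q) (hPb : P ≤ b ^ 2) (hQb : Q ≤ b) (hT : |T - b| ≤ 1 / 4)
    {e v v' : ℕ} (he : E e v' v) (hv : (v : ℚ) = Y * (u + T))
    (hne : ∀ k : ℤ, Y / e ≠ 2 ^ k) (hQe : Q ≤ e) (hPe : P ≤ b * e)
    (hTY : |T - b| * (Y / e) ≤ 1 / 8) :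
    (B : ℚ) ^ 12 ≤ 16 * b ^ 3 * e ∨ Cl u B b v' (Y / e) (T - e ^ 2 / Y) 0 e := by
  rcases dich hB hP hQ hY hPb hQb hT he hv hne hQe with h | h
  · exact Or.inl h
  right
  have he0 : (0 : ℚ) < e := by exact_mod_cast he.ha
  have hP' : (0 : ℚ) < P := by exact_mod_cast hP
  have hQ' : (0 : ℚ) < Q := by exact_mod_cast hQ
  have hY0 : 0 < Y := by rw [hY]; positivity
  have hS : St u b (Y / e) (T - e ^ 2 / Y) e v' := by
    refine ⟨?_, he.hw, he.hwp, hne, Or.inr ⟨he.ha, he.hap, he.near,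
      ⟨P, Q * e, hP, Nat.mul_pos hQ he.ha, hPe, ?_, ?_⟩, h, ?_⟩⟩
    · have h1 : (v : ℚ) = e * (v' + e) := by rw [he.hz]; push_cast; ring
      have h2 : Y / e * (u + (T - e ^ 2 / Y)) = (Y * (u + T)) / e - e := by
        field_simp
        ring
      rw [h2, ← hv, h1]
      field_simp
      ring
    · rw [pow_two]
      exact Nat.mul_le_mul_right e hQe
    · rw [hY]; push_cast; rw [div_div]
    · have h3 : T - e ^ 2 / Y - b + e / (Y / e) = T - b := by
        field_simp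
        ring
      rw [h3, le_div_iff₀ (by positivity)]
      calc |T - b| * (8 * (Y / e)) = 8 * (|T - b| * (Y / e)) := by ring
        _ ≤ 8 * (1 / 8) := by linarith
        _ = 1 := by norm_num
  have h1 := Cl.top hB hS
  rw [if_neg he.ha.ne'] at h1
  exact h1

/-- the case of a leap: `c`, `d` distinct multipliers -/
lemma leap_ne {u b c m : ℕ} {y τ : ℚ} (hS : St u b y τ c m) (hy : 3 ≤ y) {d : ℕ} {T' : ℚ}
    (hd3 : 3 ≤ d) (hdc : d ≠ c) (hT' : |T' - d| ≤ 1 / 4) : τ + T' / y ≠ b := by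
  intro h
  have hy0 : 0 < y := by linarith
  have hd3' : (3 : ℚ) ≤ d := by exact_mod_cast hd3
  have hT1 := abs_le.mp hT'
  rcases hS.alt with ⟨hc, _, hτ⟩ | ⟨hc, _, _, _, _, hτ⟩
  · rw [hτ] at h
    have h1 : T' / y = 0 := by linarith
    rw [div_eq_zero_iff] at h1
    rcases h1 with h1 | h1 <;> linarith [hT1.1, hT1.2]
  · have h2 : (τ - b + c / y) * (8 * y) = 8 * ((c : ℚ) - T') := by
      have h3 : τ = b - T' / y := by linarith
      rw [h3]
      field_simp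
      ring
    have h4 : |(c : ℚ) - T'| ≤ 1 / 8 := by
      have h5 : |(τ - b + c / y) * (8 * y)| ≤ 1 := by
        rw [abs_mul, abs_of_pos (by positivity : (0 : ℚ) < 8 * y)]
        rw [le_div_iff₀ (by positivity)] at hτ
        exact hτ
      rw [h2, abs_mul, abs_of_pos (by norm_num : (0 : ℚ) < 8)] at h5
      linarith
    have h6 : |((d : ℤ) - c : ℤ)| = |((d : ℤ) - c : ℤ)| := rfl
    have h7 : (1 : ℤ) ≤ |((d : ℤ) - c : ℤ)| := by
      apply Int.one_le_abs
      intro h0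
      apply hdc
      have : (d : ℤ) = c := by linarith
      exact_mod_cast this
    have h8 : (1 : ℚ) ≤ |(d : ℚ) - c| := by exact_mod_cast h7
    have h9 : |(d : ℚ) - c| ≤ 3 / 8 := by
      have h10 := abs_le.mp h4
      rw [abs_le]
      constructor <;> linarith [h10.1, h10.2, hT1.1, hT1.2]
    linarith

lemma d1 (θ y Y' M e c d : ℚ) (hM : 3 ≤ M) (hc : c ≤ M) (hd : d ≤ M) (he : 0 < e)
    (hY' : 0 ≤ Y') (hYM : Y' ≤ M ^ 2) (hMe : M ^ 9 ≤ 16 * e)
    (h : |θ| * y ≤ c + d + 3 / 8) : |θ| * (y * Y' / e) ≤ 1 / 8 := by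
  have h1 : (3 : ℚ) ^ 6 ≤ M ^ 6 := pow_le_pow_left₀ (by norm_num) hM 6
  norm_num at h1
  have h2 : |θ| * y ≤ 3 * M := by linarith
  have h3 : |θ| * y * Y' ≤ 3 * M * M ^ 2 := by
    calc |θ| * y * Y' ≤ 3 * M * Y' := mul_le_mul_of_nonneg_right h2 hY'
      _ ≤ _ := mul_le_mul_of_nonneg_left hYM (by linarith)
  have h4 : M ^ 3 * 729 ≤ M ^ 9 := by
    calc M ^ 3 * 729 ≤ M ^ 3 * M ^ 6 := mul_le_mul_of_nonneg_left h1 (by positivity)
      _ = _ := by ring
  have h5 : |θ| * (y * Y' / e) = |θ| * y * Y' / e := by ring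
  rw [h5, div_le_iff₀ he]
  have h6 : 3 * M * M ^ 2 = 3 * M ^ 3 := by ring
  linarith

lemma d2 (M e : ℕ) (hM : 3 ≤ M) (hMe : (M : ℚ) ^ 9 ≤ 16 * e) : M ^ 3 ≤ e := by
  have hM' : (3 : ℚ) ≤ M := by exact_mod_cast hM
  have h1 : (3 : ℚ) ^ 6 ≤ (M : ℚ) ^ 6 := pow_le_pow_left₀ (by norm_num) hM' 6
  norm_num at h1
  have h4 : (M : ℚ) ^ 3 * 729 ≤ M ^ 9 := by
    calc (M : ℚ) ^ 3 * 729 ≤ M ^ 3 * M ^ 6 := mul_le_mul_of_nonneg_left h1 (by positivity)
      _ = _ := by ring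
  have h5 : (0 : ℚ) ≤ (M : ℚ) ^ 3 := by positivity
  have h6 : (M : ℚ) ^ 3 ≤ e := by linarith
  exact_mod_cast h6

lemma d3 (M d e : ℚ) (hM : 3 ≤ M) (hd : 0 ≤ d) (hdM : d ≤ M)
    (he : 0 ≤ e) (h : M ^ 12 ≤ 16 * d ^ 3 * e) : M ^ 9 ≤ 16 * e := by
  have h1 : d ^ 3 ≤ M ^ 3 := pow_le_pow_left₀ hd hdM 3
  have h2 : M ^ 3 * M ^ 9 ≤ M ^ 3 * (16 * e) := by
    calc M ^ 3 * M ^ 9 = M ^ 12 := by ring
      _ ≤ 16 * d ^ 3 * e := h
      _ = d ^ 3 * (16 * e) := by ring
      _ ≤ M ^ 3 * (16 * e) := mul_le_mul_of_nonneg_right h1 (by linarith)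
  exact le_of_mul_le_mul_left h2 (by positivity)

/-- a down move either leaves the cluster (with a huge multiplier) or stays in it -/
lemma Cl.down {u B b v : ℕ} {Y T : ℚ} {p q : ℕ} (h : Cl u B b v Y T p q) {e v' : ℕ}
    (hE : E e v' v) (hep : e ≠ p) :
    (B : ℚ) ^ 12 ≤ 16 * b ^ 3 * e ∨ Cl u B b v' (Y / e) (T - e ^ 2 / Y) 0 e := by
  have he3 := three_le hE.ha hE.hap
  have he0 : (0 : ℚ) < e := by exact_mod_cast hE.ha
  have hve : (v : ℚ) = e * (v' + e) := by rw [hE.hz]; push_cast; ring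
  induction h with
  | @top u B b v c y τ hB hS =>
    have hb3 := hB.b3
    have hb3' : (3 : ℚ) ≤ b := by exact_mod_cast hb3
    obtain ⟨hcb, hy3, hT, hTy, _⟩ := hS.bounds hb3
    rcases hS.alt with ⟨hc, hy, hτ⟩ | ⟨hc0, hcp, hn, ⟨P, Q, hP, hQ, hPc, hQc, hyPQ⟩, hlow, hτ⟩
    · rw [if_pos hc] at hep
      have hv := hS.hm
      rw [hy, hτ] at hv ⊢
      refine new_state hB (P := b) (Q := 1) (by omega) one_pos (by simp) (by nlinarith)
        (by omega) (by norm_num) hE hv ?_ (by omega) (by nlinarith) (by norm_num)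
      intro k hk
      apply hep
      symm
      refine val_eq hB.val hE.val hE.ha ?_ k hk
      have h1 : (b : ℚ) * (u + b) = e * (v' + e) := by rw [← hv, hve]
      exact_mod_cast h1
    · have hc3 := three_le hc0 hcp
      have hc3' : (3 : ℚ) ≤ c := by exact_mod_cast hc3
      have hy0 : 0 < y := by linarith
      have htr := trivial_exit hE hc3 hn
      have h10 : (3 : ℚ) ^ 10 ≤ (c : ℚ) ^ 10 := pow_ge hc3' 10
      norm_num at h10
      have hc2e : (c : ℚ) ^ 2 * 59049 ≤ 4 * e := by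
        calc (c : ℚ) ^ 2 * 59049 ≤ c ^ 2 * c ^ 10 :=
              mul_le_mul_of_nonneg_left h10 (by positivity)
          _ = c ^ 12 := by ring
          _ ≤ _ := htr
      have hcc : 3 * (c : ℚ) ≤ c ^ 2 := by nlinarith
      have hc2e' : c ^ 2 ≤ e := by
        have : (c : ℚ) ^ 2 ≤ e := by
          have : (0 : ℚ) ≤ (c : ℚ) ^ 2 := by positivity
          linarith
        exact_mod_cast this
      have hce : c ≤ e := by nlinarith
      have hθ : |τ - b| * (y / e) ≤ 1 / 8 := by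
        have h5 : |τ - b| * (y / e) = |τ - b| * y / e := by ring
        rw [h5, div_le_iff₀ he0]
        linarith
      have hτb : τ ≠ b := by
        intro h0
        rw [h0, sub_self, zero_add, abs_of_nonneg (by positivity), le_div_iff₀ (by positivity)]
          at hτ
        have : (c : ℚ) / y * (8 * y) = 8 * c := by field_simp
        linarith
      have hv1 : y * (u + τ) = e * (v' + e) := by rw [← hS.hm, hve]
      refine new_state hB hP hQ hyPQ ?_ (hQc.trans ?_) hT hE hS.hm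
        (excl u b y τ e v' hE.ha hv1 hτb hT hθ) (hQc.trans hc2e')
        (hPc.trans (Nat.mul_le_mul_left b hce)) hθ
      · nlinarith
      · exact (small_c hc3 hQ hPc hyPQ hlow).1
  | @push u B b m c d v p q y τ Y T hB hS hd hC ih =>
    obtain ⟨hcb, hy3, hT, hTy, P, Q, hP, hQ, hPb, hQb, hy, hPQ⟩ := hS.bounds hB.b3
    have hBd := (Cl.push hB hS hd hC).bounds
    obtain ⟨hv', hT', hY', P', Q', hP', hQ', hYe, hP'd, hQ'd⟩ := hC.bounds
    have hy0 : 0 < y := by linarith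
    have hY0 : 0 < Y := by linarith
    rcases ih hE hep hve with hex | hin
    · -- the inner frame is left
      have hBm := hC.base
      have hd3 := hBm.b3
      have hcM : c ≤ max c d := le_max_left _ _
      have hdM : d ≤ max c d := le_max_right _ _
      have hM3 : 3 ≤ max c d := hd3.trans hdM
      obtain ⟨hM12, hyM⟩ := transfer hB hS hM3 hcM hBm.near
      obtain ⟨hPM, hQM⟩ := hPQ (max c d) (by omega) hcM
      have hMb := tr7 _ _ hM3 hM12
      have hM3' : (3 : ℚ) ≤ (max c d : ℕ) := by exact_mod_cast hM3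
      have hcM' : (c : ℚ) ≤ (max c d : ℕ) := by exact_mod_cast hcM
      have hdM' : (d : ℚ) ≤ (max c d : ℕ) := by exact_mod_cast hdM
      have hM9 := d3 (max c d : ℕ) d e hM3' (Nat.cast_nonneg d) hdM' he0.le hex
      have hMe := d2 (max c d) e hM3 hM9
      have hTb := b3 b c d τ T y hy3 (Nat.cast_nonneg d) hTy hT'
      have hY2 : Y ≤ (max c d : ℕ) ^ 2 := by
        have h1 : Y ≤ P' := by
          rw [hYe, div_le_iff₀ (by exact_mod_cast hQ')]
          have h2 : (1 : ℚ) ≤ Q' := by exact_mod_cast hQ'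
          have h3 : (0 : ℚ) ≤ P' := Nat.cast_nonneg P'
          nlinarith
        have h2 : P' ≤ (max c d) ^ 2 := hP'd.trans (Nat.pow_le_pow_left hdM 2)
        have h3 : (P' : ℚ) ≤ (max c d : ℕ) ^ 2 := by exact_mod_cast h2
        linarith
      have hθ := d1 (τ + T / y - b) y Y (max c d : ℕ) e c d hM3' hcM' hdM' he0 hY0.le hY2
        hM9 hTb
      have hne := leap_ne hS hy3 hd3 hd hT'
      have hv1 : y * Y * (u + (τ + T / y)) = e * (v' + e) := by rw [← hBd.hv, hve]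
      have hQQ : Q * Q' ≤ (max c d) ^ 3 := by
        calc Q * Q' ≤ (max c d) ^ 2 * (max c d) := Nat.mul_le_mul hQM (hQ'd.trans hdM)
          _ = _ := by ring
      have hPP : P * P' ≤ b * (max c d) ^ 3 := by
        calc P * P' ≤ (b * (max c d)) * (max c d) ^ 2 :=
              Nat.mul_le_mul hPM (hP'd.trans (Nat.pow_le_pow_left hdM 2))
          _ = _ := by ring
      refine new_state hB (P := P * P') (Q := Q * Q') (Nat.mul_pos hP hP')
        (Nat.mul_pos hQ hQ') ?_ ?_ (hQQ.trans hMb) hBd.hT hE hBd.hv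
        (excl u b (y * Y) (τ + T / y) e v' hE.ha hv1 hne hBd.hT hθ)
        (hQQ.trans hMe) (hPP.trans (Nat.mul_le_mul_left b hMe)) hθ
      · rw [hy, hYe]
        push_cast
        rw [div_mul_div_comm]
      · calc P * P' ≤ b * (max c d) ^ 3 := hPP
          _ ≤ b * b := Nat.mul_le_mul_left b hMb
          _ = b ^ 2 := by ring
    · right
      have h1 := Cl.push hB hS hd hin
      have e1 : y * (Y / e) = y * Y / e := by ring
      have e2 : τ + (T - e ^ 2 / Y) / y = τ + T / y - e ^ 2 / (y * Y) := by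
        field_simp
        ring
      rw [e1, e2] at h1
      exact h1

end Pool.Agent.H78.DP
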