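import Pool.Agent.H78.DP.Down

set_option autoImplicit false

/-!
The graph of all pairs `{w, a (w + a)}` is a forest, hence two-colourable.
-/

namespace Pool.Agent.H78.DP

lemma E.lt {a w z : ℕ} (h : E a w z) : w < z := by
  have h3 := three_le h.ha h.hap
  rw [h.hz]
  nlinarith [h.hw]

/-- no non-backtracking walk starting with its largest multiplier comes back -/
lemma no_walk (f : ℕ → ℕ) (n : ℕ) (hn : 1 ≤ n) (hper : f n = f 0)
    (hadj : ∀ i, ∃ a, E a (f i) (f (i + 1)) ∨ E a (f (i + 1)) (f i))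
    (hnb : ∀ i, f i ≠ f (i + 2)) (A : ℕ) (h0 : E A (f 0) (f 1))
    (hmax : ∀ i a, E a (f i) (f (i + 1)) ∨ E a (f (i + 1)) (f i) → a ≤ A) : False := by
  have hA3 := three_le h0.ha h0.hap
  have hA3' : (3 : ℚ) ≤ A := by exact_mod_cast hA3
  have hB : Base (f 0) A A := ⟨h0.hw, h0.hwp, h0.ha, h0.hap, le_rfl, h0.near, h0.val⟩
  have inv : ∀ i, ∃ (Y T : ℚ) (p q : ℕ), Cl (f 0) A A (f (i + 1)) Y T p q ∧
      (p ≠ 0 → f (i + 1) = p * (f i + p)) ∧ (q ≠ 0 → f i = q * (f (i + 1) + q)) := by
    intro i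
    induction i with
    | zero =>
      have hS : St (f 0) A (A : ℚ) (A : ℚ) 0 (f 1) := by
        refine ⟨?_, ?_, ?_, ne_zpow_of_notP2 h0.hap, Or.inl ⟨rfl, rfl, rfl⟩⟩
        · rw [h0.hz]; push_cast; ring
        · rw [h0.hz]; exact Nat.mul_pos h0.ha (by omega)
        · rw [h0.hz]; exact notP2_mul h0.hap
      have h1 := Cl.top hB hS
      simp only [if_true] at h1
      exact ⟨_, _, _, _, h1, fun _ => h0.hz, fun h => absurd rfl h⟩
    | succ i ih =>
      obtain ⟨Y, T, p, q, hC, hp, hq⟩ := ih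
      obtain ⟨a, ha⟩ := hadj (i + 1)
      have haA := hmax (i + 1) a ha
      rcases ha with ha | ha
      · -- up
        have haq : a ≠ q := by
          rintro rfl
          apply hnb i
          rw [hq ha.ha.ne', show i + 2 = i + 1 + 1 from rfl, ha.hz]
        exact ⟨_, _, _, _, hC.up ha haq, fun _ => ha.hz, fun h => absurd rfl h⟩
      · -- down
        have hap : a ≠ p := by
          rintro rfl
          apply hnb i
          have h1 := hp ha.ha.ne'
          rw [ha.hz] at h1
          have h2 := Nat.eq_of_mul_eq_mul_left ha.ha h1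
          have h3 : f (i + 1 + 1) = f i := by omega
          exact h3.symm
        rcases hC.down ha hap with h | h
        · exfalso
          have haA' : (a : ℚ) ≤ A := by exact_mod_cast haA
          have h1 : (A : ℚ) ^ 4 * (A : ℚ) ^ 8 ≤ (A : ℚ) ^ 4 * 16 := by
            calc (A : ℚ) ^ 4 * (A : ℚ) ^ 8 = (A : ℚ) ^ 12 := by ring
              _ ≤ 16 * (A : ℚ) ^ 3 * (a : ℚ) := h
              _ ≤ 16 * (A : ℚ) ^ 3 * (A : ℚ) := mul_le_mul_of_nonneg_left haA' (by positivity)
              _ = _ := by ring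
          have h2 : (A : ℚ) ^ 8 ≤ 16 := le_of_mul_le_mul_left h1 (by positivity)
          have h3 : (3 : ℚ) ^ 8 ≤ (A : ℚ) ^ 8 := pow_ge hA3' 8
          norm_num at h3
          linarith
        · exact ⟨_, _, _, _, h, fun h => absurd rfl h, fun _ => ha.hz⟩
  obtain ⟨Y, T, p, q, hC, _, _⟩ := inv (n - 1)
  rw [Nat.sub_add_cancel hn, hper] at hC
  have hb := hC.bounds
  have hT := abs_le.mp hb.hT
  have h1 := hb.hv
  have h2 : (0 : ℚ) ≤ (f 0 : ℕ) := Nat.cast_nonneg _
  have h3 : (3 : ℚ) * ((f 0 : ℕ) + T) ≤ Y * ((f 0 : ℕ) + T) :=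
    mul_le_mul_of_nonneg_right hb.hY (by linarith [hT.1])
  linarith [hT.1]

/-- the graph -/
def G : SimpleGraph ℕ where
  Adj x y := ∃ a, E a x y ∨ E a y x
  symm := ⟨fun x y ⟨a, h⟩ => ⟨a, h.symm⟩⟩
  loopless := ⟨fun x ⟨a, h⟩ => by rcases h with h | h <;> exact lt_irrefl _ h.lt⟩

/-- a closed walk indexed by `ℤ` -/
lemma no_cycle_aux (F : ℤ → ℕ) (n : ℕ) (hn : 1 ≤ n) (hper : ∀ i, F (i + n) = F i)
    (hadj : ∀ i, G.Adj (F i) (F (i + 1))) (hnb : ∀ i, F i ≠ F (i + 2)) : False := by
  obtain ⟨S, hS⟩ : ∃ S : Set ℕ, S = {a | ∃ i : ℤ, E a (F i) (F (i + 1)) ∨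
      E a (F (i + 1)) (F i)} := ⟨_, rfl⟩
  have hne : S.Nonempty := by
    obtain ⟨a, ha⟩ := hadj 0
    exact ⟨a, by rw [hS]; exact ⟨0, ha⟩⟩
  have hFb : ∀ i, F i ≤ ∑ j ∈ Finset.range n, F (j : ℤ) := by
    intro i
    have hn' : (0 : ℤ) < n := by exact_mod_cast hn
    have hper2 : ∀ (k : ℤ) (i : ℤ), F (i + n * k) = F i := by
      intro k
      induction k with
      | zero => intro i; simp
      | succ k ih =>
        intro i
        rw [mul_add, mul_one, ← add_assoc, hper, ih]
      | pred k ih =>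
        intro i
        have := hper (i + n * (-(k : ℤ) - 1))
        rw [← this, ← ih i]
        congr 1
        ring
    have h1 : F i = F ((i % n).toNat : ℤ) := by
      rw [Int.toNat_of_nonneg (Int.emod_nonneg _ hn'.ne')]
      have h2 := hper2 (i / n) (i % n)
      rw [Int.emod_add_mul_ediv] at h2
      exact h2
    rw [h1]
    have h3 : (i % n).toNat ∈ Finset.range n := by
      rw [Finset.mem_range]
      have := Int.emod_lt_of_pos i hn'
      omega
    exact Finset.single_le_sum (f := fun j : ℕ => F (j : ℤ)) (fun _ _ => Nat.zero_le _) h3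
  have hEb : ∀ a w z, E a w z → a ≤ z := by
    intro a w z h
    rw [h.hz]
    exact Nat.le_mul_of_pos_right a (by have := h.ha; omega)
  have hbdd : BddAbove S := by
    refine ⟨∑ j ∈ Finset.range n, F (j : ℤ), ?_⟩
    intro a ha
    rw [hS] at ha
    obtain ⟨i, h | h⟩ := ha
    · exact (hEb _ _ _ h).trans (hFb _)
    · exact (hEb _ _ _ h).trans (hFb _)
  have hmem := Nat.sSup_mem hne hbdd
  have hle : ∀ a ∈ S, a ≤ sSup S := fun a ha => le_csSup hbdd ha
  generalize sSup S = A at hmem hle
  rw [hS] at hmem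
  obtain ⟨i0, h | h⟩ := hmem
  · apply no_walk (fun j => F (i0 + j)) n hn ?_ ?_ ?_ A ?_ ?_
    · have := hper i0
      simpa using this
    · intro i
      obtain ⟨a, ha⟩ := hadj (i0 + i)
      exact ⟨a, by push_cast; rw [← add_assoc]; exact ha⟩
    · intro i
      have := hnb (i0 + i)
      push_cast
      rw [← add_assoc]
      exact this
    · simpa using h
    · intro i a ha
      apply hle
      rw [hS]
      refine ⟨i0 + i, ?_⟩
      push_cast at ha
      rw [← add_assoc] at ha
      exact ha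
  · apply no_walk (fun j => F (i0 + 1 - j)) n hn ?_ ?_ ?_ A ?_ ?_
    · have := hper (i0 + 1 - n)
      simp only [sub_add_cancel] at this
      simp [this]
    · intro i
      obtain ⟨a, ha⟩ := hadj (i0 + 1 - (i + 1))
      refine ⟨a, ?_⟩
      push_cast
      have e1 : i0 + 1 - ((i : ℤ) + 1) + 1 = i0 + 1 - i := by ring
      rw [e1] at ha
      exact ha.symm
    · intro i
      have := hnb (i0 + 1 - (i + 2))
      have e1 : i0 + 1 - ((i : ℤ) + 2) + 2 = i0 + 1 - i := by ring
      rw [e1] at this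
      push_cast
      exact this.symm
    · simpa using h
    · intro i a ha
      apply hle
      rw [hS]
      refine ⟨i0 + 1 - (i + 1), ?_⟩
      have e1 : i0 + 1 - ((i : ℤ) + 1) + 1 = i0 + 1 - i := by ring
      rw [e1]
      push_cast at ha
      exact ha.symm

/-- the forest theorem -/
theorem G_acyclic : G.IsAcyclic := by
  intro v c hc
  have h3 := hc.three_le_length
  obtain ⟨n, hn⟩ : ∃ n, n = c.length := ⟨_, rfl⟩
  rw [← hn] at h3
  have hn' : (0 : ℤ) < n := by omega
  have hinj := hc.getVert_injOn'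
  have hlt : ∀ i : ℤ, (i % n).toNat < n := by
    intro i
    have := Int.emod_lt_of_pos i hn'
    omega
  have hcast : ∀ i : ℤ, (((i % n).toNat : ℕ) : ℤ) = i % n := fun i =>
    Int.toNat_of_nonneg (Int.emod_nonneg _ hn'.ne')
  have hstep : ∀ i : ℤ, ((i % n).toNat + 1 < n ∧ ((i + 1) % n).toNat = (i % n).toNat + 1) ∨
      ((i % n).toNat + 1 = n ∧ ((i + 1) % n).toNat = 0) := by
    intro i
    have h1 := hlt i
    rcases Nat.lt_or_ge ((i % n).toNat + 1) n with h | h
    · left
      refine ⟨h, ?_⟩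
      have h2 : (i + 1) % n = i % n + 1 := by
        rw [← Int.emod_add_emod]
        apply Int.emod_eq_of_lt
        · have := Int.emod_nonneg i hn'.ne'
          omega
        · have := hcast i
          omega
      rw [h2]
      have := Int.emod_nonneg i hn'.ne'
      omega
    · right
      have h4 : (i % n).toNat + 1 = n := by omega
      refine ⟨h4, ?_⟩
      have h2 : (i + 1) % n = 0 := by
        rw [← Int.emod_add_emod]
        have := hcast i
        have h5 : i % n + 1 = n := by omega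
        rw [h5, Int.emod_self]
      rw [h2]
      rfl
  apply no_cycle_aux (fun i => c.getVert (i % n).toNat) n (by omega)
  · intro i
    simp
  · intro i
    rcases hstep i with ⟨h1, h2⟩ | ⟨h1, h2⟩
    · rw [h2]
      exact c.adj_getVert_succ (by omega)
    · rw [h2]
      have h5 : c.getVert 0 = c.getVert ((i % n).toNat + 1) := by
        rw [h1, hn]
        simp
      rw [h5]
      exact c.adj_getVert_succ (by omega)
  · intro i heq
    have h1 : (i % n).toNat = ((i + 2) % n).toNat := by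
      apply hinj _ _ heq
      · simp only [Set.mem_ofPred_eq]
        have := hlt i
        omega
      · simp only [Set.mem_ofPred_eq]
        have := hlt (i + 2)
        omega
    have e : i + 2 = i + 1 + 1 := by ring
    rw [e] at h1
    rcases hstep i with ⟨h2, h3⟩ | ⟨h2, h3⟩ <;> rcases hstep (i + 1) with ⟨h4, h5⟩ | ⟨h4, h5⟩ <;>
      omega

/-- a two-colouring of the forest -/
theorem exists_colouring : ∃ χ : ℕ → Bool, ∀ a w z, E a w z → χ w ≠ χ z := by
  obtain ⟨C⟩ := G_acyclic.colorable_two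
  refine ⟨fun x => decide (C x = 0), ?_⟩
  intro a w z h heq
  have hadj : G.Adj w z := ⟨a, Or.inl h⟩
  have h1 := C.valid hadj
  apply h1
  have h2 : ∀ x y : Fin 2, decide (x = 0) = decide (y = 0) → x = y := by decide
  exact h2 _ _ heq

end Pool.Agent.H78.DP
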