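import Pool.Agent.H78.DP.Core

set_option autoImplicit false

/-!
Frames: a base `u` close to a power of two and the dichotomy for down moves.
-/

namespace Pool.Agent.H78.DP

/-- admissible base `u` with precision `B` and first multiplier `b` -/
structure Base (u B b : ℕ) : Prop where
  hu : 0 < u
  hup : ¬ IsP2 u
  hb : 0 < b
  hbp : ¬ IsP2 b
  hbB : b ≤ B
  near : Near u (B ^ 12)
  val : Val b u

lemma Base.b3 {u B b : ℕ} (h : Base u B b) : 3 ≤ b := three_le h.hb h.hbp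

lemma Base.beta {u B b : ℕ} (h : Base u B b) (T : ℚ) (hT : |T - b| ≤ 1 / 4) :
    ∃ (L : ℕ) (β : ℚ), (u : ℚ) + T = 2 ^ L * (1 + β) ∧ |β| * (B : ℚ) ^ 12 ≤ 2 * b := by
  obtain ⟨L, h1, h2⟩ := near_data h.near h.hup
  have hb3 : (3 : ℚ) ≤ b := by exact_mod_cast h.b3
  have hbB : (b : ℚ) ≤ B := by exact_mod_cast h.hbB
  have hB0 : (0 : ℚ) < (B : ℚ) ^ 12 := by
    have : (0 : ℚ) < B := by linarith
    positivity
  have hT' : |T| ≤ b + 1 / 4 := by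
    have h3 := abs_le.mp hT
    rw [abs_le]
    constructor <;> linarith [h3.1, h3.2]
  push_cast at h1 h2
  obtain ⟨β, hβ1, hβ2⟩ := exists_beta u L ((B : ℚ) ^ 12) T (b + 1 / 4) hB0 h1 h2 hT'
  exact ⟨L, β, hβ1, by linarith⟩

lemma pow_ge {x : ℚ} (hx : 3 ≤ x) (n : ℕ) : (3 : ℚ) ^ n ≤ x ^ n :=
  pow_le_pow_left₀ (by norm_num) hx n

/-- data attached to an edge from the lower vertex -/
lemma E.alpha {e v' v : ℕ} (h : E e v' v) :
    ∃ (s : ℕ) (α : ℚ), (v : ℚ) = e * (2 ^ s * (1 + α)) ∧ |α| * (e : ℚ) ^ 11 ≤ 4 / 3 ∧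
      |α| ≤ 1 / 4 := by
  obtain ⟨s, h1, h2⟩ := near_data h.near h.hwp
  have he3 : (3 : ℚ) ≤ e := by exact_mod_cast three_le h.ha h.hap
  have he0 : (0 : ℚ) < (e : ℚ) ^ 12 := by
    have : (0 : ℚ) < e := by linarith
    positivity
  push_cast at h1 h2
  obtain ⟨α, hα1, hα2⟩ := exists_beta v' s ((e : ℚ) ^ 12) e e he0 h1 h2
    (by rw [abs_of_nonneg]; positivity)
  have h11 := pow_ge he3 11
  have h0 : 0 ≤ |α| := abs_nonneg α
  have h3 : |α| * (e : ℚ) ^ 11 ≤ 4 / 3 := by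
    have h4 : (|α| * (e : ℚ) ^ 11) * e ≤ 4 / 3 * e := by
      have : (|α| * (e : ℚ) ^ 11) * e = |α| * (e : ℚ) ^ 12 := by ring
      rw [this]; linarith
    exact le_of_mul_le_mul_right h4 (by linarith)
  refine ⟨s, α, ?_, h3, ?_⟩
  · rw [← hα1, h.hz]; push_cast; ring
  · by_contra hc
    push Not at hc
    norm_num at h11
    nlinarith

lemma ineq1 (Bq E y x e : ℚ) (hB : 9 ≤ Bq) (he : 3 ≤ e) (hE : 0 < E) (hy0 : 0 ≤ y)
    (hyb : y * (8 * Bq * e) ≤ 1) (hxe : x * E ≤ 4 / 3) (h1 : 1 ≤ Bq * (y + 2 * x)) :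
    (2 * y + x) * E ≤ 2 := by
  have hby : Bq * y ≤ 1 / 24 := by
    have h0 : 0 ≤ Bq * y := by positivity
    nlinarith
  have hbx : 23 / 48 ≤ Bq * x := by linarith
  have h3 : 23 / 48 * E ≤ Bq * x * E := mul_le_mul_of_nonneg_right hbx hE.le
  have h4 : Bq * x * E ≤ Bq * (4 / 3) := by
    have : Bq * x * E = Bq * (x * E) := by ring
    rw [this]
    exact mul_le_mul_of_nonneg_left hxe (by linarith)
  have h5 : E ≤ 3 * Bq := by linarith
  have h6 : y * E ≤ y * (3 * Bq) := mul_le_mul_of_nonneg_left h5 hy0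
  have h7 : y * (3 * Bq) = 3 * (Bq * y) := by ring
  linarith

lemma ineq2 (b e y : ℚ) (hb : 3 ≤ b) (he : 3 ≤ e) (hy0 : 0 ≤ y)
    (hyb : y * (8 * b ^ 2 * e) ≤ 1) : y ≤ 1 / 4 := by
  have h1 : (9 : ℚ) ≤ b ^ 2 := by nlinarith
  have h2 : (216 : ℚ) ≤ 8 * b ^ 2 * e := by nlinarith
  nlinarith

lemma ineq3 (b e y Q x : ℚ) (hb : 3 ≤ b) (he : 3 ≤ e) (hy0 : 0 ≤ y) (hx0 : 0 ≤ x)
    (hQb : Q ≤ b) (hQe : Q ≤ e)
    (hyb : y * (8 * b ^ 2 * e) ≤ 1) (hxe : x * e ^ 11 ≤ 4 / 3) :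
    Q * e * (2 * y + x) < 1 := by
  have h3 : Q * e * (2 * y) ≤ 1 / 12 := by
    have h4 : Q * (e * (2 * y)) ≤ b * (e * (2 * y)) :=
      mul_le_mul_of_nonneg_right hQb (by positivity)
    have h5 : (b * e * y) * (8 * b) ≤ 1 := by
      have : b * e * y * (8 * b) = y * (8 * b ^ 2 * e) := by ring
      rw [this]; exact hyb
    have h6 : 0 ≤ b * e * y := by positivity
    nlinarith
  have h4 : Q * e * x ≤ 1 / 2 := by
    have h5 : Q * (e * x) ≤ e * (e * x) := mul_le_mul_of_nonneg_right hQe (by positivity)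
    have h6 : (e * (e * x)) * e ^ 9 ≤ 4 / 3 := by
      have : (e * (e * x)) * e ^ 9 = x * e ^ 11 := by ring
      rw [this]; exact hxe
    have h7 : 0 ≤ e * (e * x) := by positivity
    have h8 : (3 : ℚ) ^ 9 ≤ e ^ 9 := pow_le_pow_left₀ (by norm_num) he 9
    norm_num at h8
    have h9 : e * (e * x) * 19683 ≤ 4 / 3 := (mul_le_mul_of_nonneg_left h8 h7).trans h6
    linarith
  linarith

/-- if `X (1+α) = y Z (1+β)` and `Z * F ≤ 2 X` then `y` is large -/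
lemma ineq4 (y Z X α β F : ℚ) (hZ : 0 < Z) (hX : 0 < X) (hy : 0 < y)
    (hα : |α| ≤ 1 / 4) (hβ : |β| ≤ 1 / 4) (h : y * (Z * (1 + β)) = X * (1 + α))
    (hF : Z * F ≤ 2 * X) : 3 / 10 * F ≤ y := by
  have hβu := (abs_le.mp hβ).2
  have hαl := (abs_le.mp hα).1
  have h11 : X * (3 / 4) ≤ y * (Z * (5 / 4)) := by
    calc X * (3 / 4) ≤ X * (1 + α) := by
          apply mul_le_mul_of_nonneg_left _ hX.le; linarith
      _ = y * (Z * (1 + β)) := h.symm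
      _ ≤ y * (Z * (5 / 4)) := by
          apply mul_le_mul_of_nonneg_left _ hy.le
          apply mul_le_mul_of_nonneg_left _ hZ.le; linarith
  have h12 : Z * (3 / 10 * F) ≤ Z * y := by
    have e1 : y * (Z * (5 / 4)) = 5 / 4 * (Z * y) := by ring
    have e2 : Z * (3 / 10 * F) = 3 / 10 * (Z * F) := by ring
    rw [e2]; rw [e1] at h11; linarith
  exact le_of_mul_le_mul_left h12 hZ

/-- The dichotomy for a down move. -/
lemma dich {u B b : ℕ} (hB : Base u B b) {Y T : ℚ} {P Q : ℕ} (hP : 0 < P) (hQ : 0 < Q)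
    (hY : Y = P / Q) (hPb : P ≤ b ^ 2) (hQb : Q ≤ b) (hT : |T - b| ≤ 1 / 4)
    {e v v' : ℕ} (he : E e v' v) (hv : (v : ℚ) = Y * (u + T))
    (hne : ∀ k : ℤ, Y / e ≠ 2 ^ k) (hQe : Q ≤ e) :
    (B : ℚ) ^ 12 ≤ 16 * b ^ 3 * e ∨ (e : ℚ) ^ 12 ≤ 8 * e ^ 3 * (Y / e) := by
  by_contra hcon
  push Not at hcon
  obtain ⟨hnB, hnA⟩ := hcon
  have hb3 : (3 : ℚ) ≤ b := by exact_mod_cast hB.b3
  have he3 : (3 : ℚ) ≤ e := by exact_mod_cast three_le he.ha he.hap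
  have hb0 : (0 : ℚ) < b := by linarith
  have he0 : (0 : ℚ) < e := by linarith
  have hP' : (0 : ℚ) < P := by exact_mod_cast hP
  have hQ' : (0 : ℚ) < Q := by exact_mod_cast hQ
  have hPb' : (P : ℚ) ≤ b ^ 2 := by exact_mod_cast hPb
  have hQb' : (Q : ℚ) ≤ b := by exact_mod_cast hQb
  have hQe' : (Q : ℚ) ≤ e := by exact_mod_cast hQe
  obtain ⟨L, β, hβ, hβB⟩ := hB.beta T hT
  obtain ⟨s, α, hα, hαe, hα4⟩ := he.alpha
  have hx0 : 0 ≤ |α| := abs_nonneg _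
  have hy0 : 0 ≤ |β| := abs_nonneg _
  have hyb : |β| * (8 * b ^ 2 * e) ≤ 1 := by
    have h1 : |β| * (16 * b ^ 3 * e) ≤ 2 * b :=
      (mul_le_mul_of_nonneg_left hnB.le hy0).trans hβB
    have h2 : (|β| * (8 * b ^ 2 * e)) * (2 * b) ≤ 1 * (2 * b) := by
      calc (|β| * (8 * b ^ 2 * e)) * (2 * b) = |β| * (16 * b ^ 3 * e) := by ring
        _ ≤ _ := by linarith
    exact le_of_mul_le_mul_right h2 (by linarith)
  have hβ4 : |β| ≤ 1 / 4 := ineq2 b e |β| hb3 he3 hy0 hyb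
  have hL0 : (0 : ℚ) < 2 ^ L := by positivity
  have hs0 : (0 : ℚ) < 2 ^ s := by positivity
  have hY0 : 0 < Y / e := by rw [hY]; positivity
  have h9 : Y / e * (2 ^ L * (1 + β)) = 2 ^ s * (1 + α) := by
    have h10 : e * (2 ^ s * (1 + α)) = Y * (2 ^ L * (1 + β)) := by
      rw [← hα, hv, hβ]
    rw [div_mul_eq_mul_div, div_eq_iff he0.ne', ← h10]
    ring
  have heq : ((Q * e : ℕ) : ℚ) * 2 ^ s * (1 + α) = P * 2 ^ L * (1 + β) := by
    rw [hY] at h9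
    push_cast
    have h3 : (Q : ℚ) * e * (P / Q / e * (2 ^ L * (1 + β))) = P * 2 ^ L * (1 + β) := by
      field_simp
    rw [← h3, h9]; ring
  have hne' : ((Q * e : ℕ) : ℚ) * 2 ^ s ≠ P * 2 ^ L := by
    intro h0
    apply hne ((s : ℤ) - L)
    rw [hY, zpow_sub₀ (by norm_num), zpow_natCast, zpow_natCast]
    push_cast at h0
    rw [div_div, div_eq_div_iff (by positivity) hL0.ne']
    linarith
  rcases core P (Q * e) s L hP (Nat.mul_pos hQ he.ha) α β hα4 hβ4 heq hne' with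
    ⟨_, h1, h2⟩ | ⟨_, h1⟩
  · have hb2 : (9 : ℚ) ≤ b ^ 2 := by nlinarith
    have h1' : 1 ≤ (b : ℚ) ^ 2 * (|β| + 2 * |α|) :=
      h1.trans (mul_le_mul_of_nonneg_right hPb' (by linarith))
    have hsum : (2 * |β| + |α|) * (e : ℚ) ^ 11 ≤ 2 :=
      ineq1 (b ^ 2) (e ^ 11) |β| |α| e hb2 he3 (by positivity) hy0 hyb hαe h1'
    have h5 : (2 : ℚ) ^ L * e ^ 9 ≤ 2 * 2 ^ s := by
      have h8 : (0 : ℚ) ≤ e * (2 ^ s * (2 * |β| + |α|)) := by positivity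
      have h6 : ((Q * e : ℕ) : ℚ) * 2 ^ s * (2 * |β| + |α|)
          ≤ e * (e * (2 ^ s * (2 * |β| + |α|))) := by
        push_cast
        calc (Q : ℚ) * e * 2 ^ s * (2 * |β| + |α|) = Q * (e * (2 ^ s * (2 * |β| + |α|))) := by
              ring
          _ ≤ _ := mul_le_mul_of_nonneg_right hQe' h8
      calc (2 : ℚ) ^ L * e ^ 9 ≤ (e * (e * (2 ^ s * (2 * |β| + |α|)))) * e ^ 9 :=
            mul_le_mul_of_nonneg_right (h2.trans h6) (by positivity)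
        _ = 2 ^ s * ((2 * |β| + |α|) * e ^ 11) := by ring
        _ ≤ 2 ^ s * 2 := mul_le_mul_of_nonneg_left hsum (by positivity)
        _ = 2 * 2 ^ s := by ring
    have h13 := ineq4 (Y / e) (2 ^ L) (2 ^ s) α β (e ^ 9) hL0 hs0 hY0 hα4 hβ4 h9 h5
    have h14 : 8 * (e : ℚ) ^ 3 * (3 / 10 * e ^ 9) ≤ 8 * e ^ 3 * (Y / e) :=
      mul_le_mul_of_nonneg_left h13 (by positivity)
    have h15 : 8 * (e : ℚ) ^ 3 * (3 / 10 * e ^ 9) = 24 / 10 * e ^ 12 := by ring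
    have h16 : (0 : ℚ) < e ^ 12 := by positivity
    linarith
  · push_cast at h1
    have := ineq3 b e |β| Q |α| hb3 he3 hy0 hx0 hQb' hQe' hyb hαe
    linarith

end Pool.Agent.H78.DP
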