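import Pool.Agent.H78.DP.Core

set_option autoImplicit false

/-!
Sequences: valuations and closeness to powers of two.
-/

namespace Pool.Agent.H78.DP

lemma pv_odd (i o : ℕ) : padicValNat 2 (2 ^ i * (2 * o + 1)) = i := by
  have : Fact (Nat.Prime 2) := ⟨Nat.prime_two⟩
  rw [padicValNat.mul (by positivity) (by omega), padicValNat.prime_pow,
    padicValNat.eq_zero_of_not_dvd (by omega), add_zero]

lemma exists_odd (z : ℕ) (hz : 0 < z) : ∃ o, z = 2 ^ (padicValNat 2 z) * (2 * o + 1) := by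
  obtain ⟨k, m, ⟨o, rfl⟩, h⟩ := Nat.exists_eq_two_pow_mul_odd hz.ne'
  refine ⟨o, ?_⟩
  have h1 : padicValNat 2 z = k := by rw [h]; exact pv_odd k o
  rw [h1]; exact h

/-- equal valuations: the difference has a larger valuation -/
lemma val_of_eq {a b : ℕ} (ha : 0 < a) (hab : a < b) (h : padicValNat 2 a = padicValNat 2 b) :
    Val a (b - a) := by
  obtain ⟨o, ho⟩ := exists_odd a ha
  obtain ⟨o', ho'⟩ := exists_odd b (by omega)
  rw [← h] at ho'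
  refine ⟨padicValNat 2 a, o, o' - o, ho, ?_⟩
  generalize padicValNat 2 a = i at ho ho'
  have h1 : o < o' := by
    by_contra hc
    push Not at hc
    have : 2 ^ i * (2 * o' + 1) ≤ 2 ^ i * (2 * o + 1) := Nat.mul_le_mul_left _ (by omega)
    omega
  obtain ⟨d, rfl⟩ := Nat.exists_eq_add_of_lt h1
  have h2 : o + d + 1 - o = d + 1 := by omega
  rw [h2, ho', ho]
  have h3 : 2 ^ i * (2 * (o + d + 1) + 1) = 2 ^ i * (2 * o + 1) + 2 ^ (i + 1) * (d + 1) := by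
    ring
  omega

/-- different valuations -/
lemma pv_sub {a b : ℕ} (ha : 0 < a) (hab : a < b) (h : padicValNat 2 a < padicValNat 2 b) :
    padicValNat 2 (b - a) = padicValNat 2 a := by
  obtain ⟨o, ho⟩ := exists_odd a ha
  obtain ⟨o', ho'⟩ := exists_odd b (by omega)
  generalize padicValNat 2 a = i at ho h ⊢
  generalize padicValNat 2 b = j at ho' h ⊢
  obtain ⟨d, rfl⟩ := Nat.exists_eq_add_of_lt h
  have h1 : b = 2 ^ i * (2 * (2 ^ d * (2 * o' + 1))) := by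
    rw [ho']; ring
  generalize 2 ^ d * (2 * o' + 1) = x at h1
  have h2 : o < x := by
    by_contra hc
    push Not at hc
    have : 2 ^ i * (2 * x) ≤ 2 ^ i * (2 * o + 1) := Nat.mul_le_mul_left _ (by omega)
    omega
  obtain ⟨y, rfl⟩ := Nat.exists_eq_add_of_lt h2
  have h3 : b - a = 2 ^ i * (2 * y + 1) := by
    rw [h1, ho]
    have : 2 ^ i * (2 * (o + y + 1)) = 2 ^ i * (2 * o + 1) + 2 ^ i * (2 * y + 1) := by ring
    omega
  rw [h3]
  exact pv_odd i y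

lemma Near.anti {w N N' : ℕ} (h : Near w N) (hN : N' ≤ N) : Near w N' := by
  obtain ⟨s, hs⟩ := h
  refine ⟨s, ?_⟩
  have h1 : (N' : ℚ) ≤ N := by exact_mod_cast hN
  exact (mul_le_mul_of_nonneg_left h1 (abs_nonneg _)).trans hs

/-- subtracting a small number from a number close to a power of two -/
lemma near_sub {w a N : ℕ} (hN : 1 ≤ N) (haw : a ≤ w) (h : Near w (2 * N))
    (hw : 4 * a * N ≤ w) : Near (w - a) N := by
  obtain ⟨s, hs⟩ := h
  refine ⟨s, ?_⟩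
  have hs0 : (0 : ℚ) < 2 ^ s := by positivity
  have hN' : (1 : ℚ) ≤ N := by exact_mod_cast hN
  have hw' : 4 * (a : ℚ) * N ≤ w := by exact_mod_cast hw
  rw [Nat.cast_sub haw]
  push_cast at hs
  have h1 : |(w : ℚ) - 2 ^ s| ≤ 2 ^ s := by
    have h0 : 0 ≤ |(w : ℚ) - 2 ^ s| := abs_nonneg _
    have h2 : |(w : ℚ) - 2 ^ s| * 1 ≤ |(w : ℚ) - 2 ^ s| * (2 * N) :=
      mul_le_mul_of_nonneg_left (by linarith) h0
    linarith
  have h3 : (w : ℚ) ≤ 2 * 2 ^ s := by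
    have := (abs_le.mp h1).2
    linarith
  have h4 : |(w : ℚ) - a - 2 ^ s| ≤ |(w : ℚ) - 2 ^ s| + a := by
    have e : (w : ℚ) - a - 2 ^ s = (w - 2 ^ s) + -a := by ring
    rw [e]
    refine (abs_add_le _ _).trans ?_
    rw [abs_neg, abs_of_nonneg (Nat.cast_nonneg a : (0 : ℚ) ≤ a)]
  have h5 : |(w : ℚ) - a - 2 ^ s| * N ≤ (|(w : ℚ) - 2 ^ s| + a) * N :=
    mul_le_mul_of_nonneg_right h4 (by linarith)
  have h6 : (|(w : ℚ) - 2 ^ s| + a) * N = |(w : ℚ) - 2 ^ s| * (2 * N) / 2 + 4 * a * N / 4 := by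
    ring
  linarith

lemma ne_two_pow_mul {a : ℕ} (hap : ¬ IsP2 a) (s t : ℕ) : (a : ℚ) * 2 ^ s ≠ 2 ^ t := by
  intro h
  have h1 : a * 2 ^ s = 2 ^ t := by exact_mod_cast h
  apply hap
  have h2 : a ∣ 2 ^ t := ⟨2 ^ s, h1.symm⟩
  obtain ⟨i, _, hi⟩ := (Nat.dvd_prime_pow Nat.prime_two).mp h2
  exact ⟨i, hi⟩

/-- if `a` is not a power of two and `w` is close to a power of two then `a w` is not -/
lemma not_near_mul {a w N : ℕ} (ha : 0 < a) (hap : ¬ IsP2 a) (h : Near w (8 * a))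
    (hN : 8 * a ≤ N) : ¬ Near (a * w) N := by
  intro h'
  obtain ⟨s, hs⟩ := h
  obtain ⟨t, ht⟩ := h'.anti hN
  have hs0 : (0 : ℚ) < 2 ^ s := by positivity
  have ht0 : (0 : ℚ) < 2 ^ t := by positivity
  have ha3 : (3 : ℚ) ≤ a := by exact_mod_cast three_le ha hap
  obtain ⟨α, hα, hαa⟩ : ∃ α : ℚ, (w : ℚ) = 2 ^ s * (1 + α) ∧ |α| * (8 * a) ≤ 1 := by
    refine ⟨((w : ℚ) - 2 ^ s) / 2 ^ s, by field_simp; ring, ?_⟩
    rw [abs_div, abs_of_pos hs0, div_mul_eq_mul_div, div_le_one hs0]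
    push_cast at hs
    exact hs
  obtain ⟨γ, hγ, hγa⟩ : ∃ γ : ℚ, ((a * w : ℕ) : ℚ) = 2 ^ t * (1 + γ) ∧ |γ| * (8 * a) ≤ 1 := by
    refine ⟨(((a * w : ℕ) : ℚ) - 2 ^ t) / 2 ^ t, by field_simp; ring, ?_⟩
    rw [abs_div, abs_of_pos ht0, div_mul_eq_mul_div, div_le_one ht0]
    have e : ((8 * a : ℕ) : ℚ) = 8 * a := by push_cast; ring
    rw [e] at ht
    exact ht
  have hx0 : 0 ≤ |α| := abs_nonneg _
  have hy0 : 0 ≤ |γ| := abs_nonneg _
  have hα4 : |α| ≤ 1 / 24 := by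
    have : |α| * 24 ≤ |α| * (8 * a) := mul_le_mul_of_nonneg_left (by linarith) hx0
    linarith
  have hγ4 : |γ| ≤ 1 / 24 := by
    have : |γ| * 24 ≤ |γ| * (8 * a) := mul_le_mul_of_nonneg_left (by linarith) hy0
    linarith
  have heq : (a : ℚ) * 2 ^ s * (1 + α) = ((1 : ℕ) : ℚ) * 2 ^ t * (1 + γ) := by
    rw [Nat.cast_one, one_mul, ← hγ, Nat.cast_mul, hα]; ring
  have hne : (a : ℚ) * 2 ^ s ≠ ((1 : ℕ) : ℚ) * 2 ^ t := by
    rw [Nat.cast_one, one_mul]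
    exact ne_two_pow_mul hap s t
  rcases core 1 a s t one_pos ha α γ (by linarith) (by linarith) heq hne with
    ⟨_, h1, _⟩ | ⟨_, h1⟩
  · push_cast at h1
    linarith
  · nlinarith

end Pool.Agent.H78.DP
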