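import Pool.Agent.H78.DP.SeqA

set_option autoImplicit false

/-!
The fractional part of the binary logarithm.
-/

open Filter Topology

namespace Pool.Agent.H78.DP

/-- fractional part of `log₂ z` -/
noncomputable def tt (z : ℕ) : ℝ := Int.fract (Real.logb 2 z)

lemma tt_nonneg (z : ℕ) : 0 ≤ tt z := Int.fract_nonneg _
lemma tt_lt (z : ℕ) : tt z < 1 := Int.fract_lt_one _

/-- `z = 2 ^ s * 2 ^ (tt z)` -/
lemma tt_eq {z : ℕ} (hz : 0 < z) : ∃ s : ℕ, (z : ℝ) = 2 ^ s * (2 : ℝ) ^ (tt z) := by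
  have hz' : (1 : ℝ) ≤ z := by exact_mod_cast hz
  have h0 : 0 ≤ Real.logb 2 z := Real.logb_nonneg (by norm_num) hz'
  have h1 : 0 ≤ ⌊Real.logb 2 z⌋ := Int.floor_nonneg.mpr h0
  refine ⟨⌊Real.logb 2 z⌋.toNat, ?_⟩
  have h2 : ((⌊Real.logb 2 z⌋.toNat : ℕ) : ℝ) = (⌊Real.logb 2 z⌋ : ℝ) := by
    have : ((⌊Real.logb 2 z⌋.toNat : ℕ) : ℤ) = ⌊Real.logb 2 z⌋ := Int.toNat_of_nonneg h1
    exact_mod_cast this
  rw [← Real.rpow_natCast, h2, ← Real.rpow_add (by norm_num), tt, Int.floor_add_fract,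
    Real.rpow_logb (by norm_num) (by norm_num) (by linarith)]

lemma near_of_real {z N s : ℕ} (h : |(z : ℝ) - 2 ^ s| * N ≤ 2 ^ s) : Near z N := by
  refine ⟨s, ?_⟩
  have h1 : ((|(z : ℚ) - 2 ^ s| * N : ℚ) : ℝ) ≤ ((2 ^ s : ℚ) : ℝ) := by
    push_cast
    exact h
  exact_mod_cast h1

lemma near_zero {z N : ℕ} (hz : 0 < z) (h : ((2 : ℝ) ^ (tt z) - 1) * N ≤ 1) : Near z N := by
  obtain ⟨s, hs⟩ := tt_eq hz
  apply near_of_real (s := s)
  have h1 : (1 : ℝ) ≤ 2 ^ (tt z) := Real.one_le_rpow (by norm_num) (tt_nonneg z)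
  have e : (z : ℝ) - 2 ^ s = 2 ^ s * (2 ^ (tt z) - 1) := by rw [hs]; ring
  have hs0 : (0 : ℝ) < 2 ^ s := by positivity
  rw [e, abs_mul, abs_of_pos hs0, abs_of_nonneg (by linarith)]
  calc (2 : ℝ) ^ s * (2 ^ tt z - 1) * N = 2 ^ s * ((2 ^ tt z - 1) * N) := by ring
    _ ≤ 2 ^ s * 1 := mul_le_mul_of_nonneg_left h hs0.le
    _ = _ := by ring

lemma near_one {z N : ℕ} (hz : 0 < z) (h : (1 - (2 : ℝ) ^ (tt z - 1)) * N ≤ 1) : Near z N := by
  obtain ⟨s, hs⟩ := tt_eq hz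
  apply near_of_real (s := s + 1)
  have h1 : (2 : ℝ) ^ (tt z - 1) ≤ 1 :=
    Real.rpow_le_one_of_one_le_of_nonpos (by norm_num) (by linarith [tt_lt z])
  have e0 : (2 : ℝ) ^ (tt z - 1) = 2 ^ (tt z) / 2 := by
    rw [Real.rpow_sub (by norm_num), Real.rpow_one]
  have e : (z : ℝ) - 2 ^ (s + 1) = 2 ^ (s + 1) * -(1 - 2 ^ (tt z - 1)) := by
    rw [hs, e0]; ring
  have hs0 : (0 : ℝ) < 2 ^ (s + 1) := by positivity
  rw [e, abs_mul, abs_of_pos hs0, abs_neg, abs_of_nonneg (by linarith)]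
  calc (2 : ℝ) ^ (s + 1) * (1 - 2 ^ (tt z - 1)) * N
      = 2 ^ (s + 1) * ((1 - 2 ^ (tt z - 1)) * N) := by ring
    _ ≤ 2 ^ (s + 1) * 1 := mul_le_mul_of_nonneg_left h hs0.le
    _ = _ := by ring

/-- along a sequence with `tt (a n) → 0` or `→ 1` the terms get close to powers of two -/
lemma ev_near {a : ℕ → ℕ} (hpos : ∀ n, 0 < a n) {t : ℝ} (ht : t = 0 ∨ t = 1)
    (hlim : Tendsto (fun n => tt (a n)) atTop (𝓝 t)) (N : ℕ) :
    ∀ᶠ n in atTop, Near (a n) N := by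
  rcases ht with rfl | rfl
  · have h1 : Tendsto (fun n => ((2 : ℝ) ^ (tt (a n)) - 1) * N) atTop
        (𝓝 (((2 : ℝ) ^ (0 : ℝ) - 1) * N)) := by
      apply Tendsto.mul_const
      apply Tendsto.sub_const
      exact Tendsto.rpow tendsto_const_nhds hlim (Or.inl (by norm_num))
    rw [Real.rpow_zero, sub_self, zero_mul] at h1
    filter_upwards [h1.eventually (gt_mem_nhds (show (0 : ℝ) < 1 by norm_num))] with n hn
    exact near_zero (hpos n) hn.le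
  · have h1 : Tendsto (fun n => (1 - (2 : ℝ) ^ (tt (a n) - 1)) * N) atTop
        (𝓝 ((1 - (2 : ℝ) ^ ((1 : ℝ) - 1)) * N)) := by
      apply Tendsto.mul_const
      apply Tendsto.const_sub
      exact Tendsto.rpow tendsto_const_nhds (hlim.sub_const 1) (Or.inl (by norm_num))
    rw [sub_self, Real.rpow_zero, sub_self, zero_mul] at h1
    filter_upwards [h1.eventually (gt_mem_nhds (show (0 : ℝ) < 1 by norm_num))] with n hn
    exact near_one (hpos n) hn.le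

/-- products -/
lemma tt_mul_lt {x y : ℕ} (hx : 0 < x) (hy : 0 < y) (h : tt x + tt y < 1) :
    tt (x * y) = tt x + tt y := by
  have hx' : (x : ℝ) ≠ 0 := by exact_mod_cast hx.ne'
  have hy' : (y : ℝ) ≠ 0 := by exact_mod_cast hy.ne'
  unfold tt at h ⊢
  rw [Int.fract_eq_iff]
  refine ⟨by positivity, h, ⌊Real.logb 2 x⌋ + ⌊Real.logb 2 y⌋, ?_⟩
  push_cast
  rw [Real.logb_mul hx' hy']
  unfold Int.fract
  ring

lemma tt_mul_ge {x y : ℕ} (hx : 0 < x) (hy : 0 < y) (h : 1 ≤ tt x + tt y) :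
    tt (x * y) = tt x + tt y - 1 := by
  have hx' : (x : ℝ) ≠ 0 := by exact_mod_cast hx.ne'
  have hy' : (y : ℝ) ≠ 0 := by exact_mod_cast hy.ne'
  have h1 := tt_lt x
  have h2 := tt_lt y
  unfold tt at h h1 h2 ⊢
  rw [Int.fract_eq_iff]
  refine ⟨by linarith, by linarith, ⌊Real.logb 2 x⌋ + ⌊Real.logb 2 y⌋ + 1, ?_⟩
  push_cast
  rw [Real.logb_mul hx' hy']
  unfold Int.fract
  ring

/-- differences -/
lemma tt_sub {x y : ℕ} (hxy : x < y) (h0 : 0 ≤ tt y + Real.logb 2 (1 - x / y))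
    (h1 : tt y + Real.logb 2 (1 - (x : ℝ) / y) < 1) :
    tt (y - x) = tt y + Real.logb 2 (1 - x / y) := by
  have hy' : (0 : ℝ) < y := by
    have : 0 < y := by omega
    exact_mod_cast this
  have hxy' : (x : ℝ) < y := by exact_mod_cast hxy
  have e : ((y - x : ℕ) : ℝ) = y * (1 - x / y) := by
    rw [Nat.cast_sub hxy.le]
    field_simp
  have hne : (1 - (x : ℝ) / y) ≠ 0 := by
    have : (x : ℝ) / y < 1 := by rw [div_lt_one hy']; exact hxy'
    linarith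
  unfold tt at h0 h1 ⊢
  rw [Int.fract_eq_iff]
  refine ⟨h0, h1, ⌊Real.logb 2 y⌋, ?_⟩
  rw [e, Real.logb_mul hy'.ne' hne]
  unfold Int.fract
  ring

lemma tendsto_diff {a : ℕ → ℕ} (hmono : StrictMono a) {t : ℝ} (ht0 : 0 < t) (ht1 : t < 1)
    (hlim : Tendsto (fun n => tt (a n)) atTop (𝓝 t)) :
    Tendsto (fun n => tt (a n - a 0)) atTop (𝓝 t) := by
  have h1 : Tendsto (fun n => (a 0 : ℝ) / (a n : ℝ)) atTop (𝓝 0) := by
    apply Tendsto.div_atTop tendsto_const_nhds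
    exact tendsto_natCast_atTop_atTop.comp hmono.tendsto_atTop
  have h2 : Tendsto (fun n => Real.logb 2 (1 - (a 0 : ℝ) / (a n : ℝ))) atTop (𝓝 0) := by
    have h3 : Tendsto (fun n => 1 - (a 0 : ℝ) / (a n : ℝ)) atTop (𝓝 (1 - 0)) :=
      h1.const_sub 1
    rw [sub_zero] at h3
    have h4 := (Real.continuousAt_logb (b := 2) (show (1 : ℝ) ≠ 0 by norm_num)).tendsto.comp h3
    rw [Real.logb_one] at h4
    exact h4
  have h5 : Tendsto (fun n => tt (a n) + Real.logb 2 (1 - (a 0 : ℝ) / (a n : ℝ))) atTop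
      (𝓝 (t + 0)) := hlim.add h2
  rw [add_zero] at h5
  refine h5.congr' ?_
  filter_upwards [h5.eventually (lt_mem_nhds ht0), h5.eventually (gt_mem_nhds ht1),
    eventually_gt_atTop 0] with n hn1 hn2 hn3
  exact (tt_sub (hmono hn3) hn1.le hn2).symm

lemma tendsto_prod_lt {a : ℕ → ℕ} (hpos : ∀ n, 0 < a n) {t : ℝ} (ht1 : t < 1 / 2)
    (hlim : Tendsto (fun n => tt (a n)) atTop (𝓝 t)) :
    Tendsto (fun n => tt (a n * a (n + 1))) atTop (𝓝 (2 * t)) := by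
  have hlim' := hlim.comp (tendsto_add_atTop_nat 1)
  have h5 : Tendsto (fun n => tt (a n) + tt (a (n + 1))) atTop (𝓝 (t + t)) := hlim.add hlim'
  rw [← two_mul] at h5
  refine h5.congr' ?_
  filter_upwards [h5.eventually (gt_mem_nhds (show 2 * t < 1 by linarith))] with n hn1
  exact (tt_mul_lt (hpos n) (hpos (n + 1)) hn1).symm

lemma tendsto_prod_gt {a : ℕ → ℕ} (hpos : ∀ n, 0 < a n) {t : ℝ} (ht1 : 1 / 2 < t)
    (hlim : Tendsto (fun n => tt (a n)) atTop (𝓝 t)) :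
    Tendsto (fun n => tt (a n * a (n + 1))) atTop (𝓝 (2 * t - 1)) := by
  have hlim' := hlim.comp (tendsto_add_atTop_nat 1)
  have h5 : Tendsto (fun n => tt (a n) + tt (a (n + 1))) atTop (𝓝 (t + t)) := hlim.add hlim'
  rw [← two_mul] at h5
  refine (h5.sub_const 1).congr' ?_
  filter_upwards [h5.eventually (lt_mem_nhds (show 1 < 2 * t by linarith))] with n hn1
  exact (tt_mul_ge (hpos n) (hpos (n + 1)) hn1.le).symm

/-- the floor of a convergent sequence takes eventually one of two values -/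
lemma floor_ev {x : ℕ → ℝ} {κ : ℝ} (h : Tendsto x atTop (𝓝 κ)) :
    ∀ᶠ n in atTop, ⌊x n⌋ = ⌊κ⌋ ∨ ⌊x n⌋ = ⌊κ⌋ - 1 := by
  have h1 : κ < ⌊κ⌋ + 1 := Int.lt_floor_add_one κ
  have h2 : (⌊κ⌋ : ℝ) - 1 < κ := by
    have := Int.floor_le κ
    linarith
  filter_upwards [h.eventually (gt_mem_nhds h1), h.eventually (lt_mem_nhds h2)] with n hn1 hn2
  have h3 : ⌊x n⌋ < ⌊κ⌋ + 1 := by
    rw [Int.floor_lt]
    push_cast
    exact hn1
  have h4 : ⌊κ⌋ - 1 ≤ ⌊x n⌋ := by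
    rw [Int.le_floor]
    push_cast
    exact hn2.le
  omega

/-- sequences converging to `s` and `2 s` are separated by the colour `⌊-2 log₂ x⌋ mod 4` -/
lemma sep {x y : ℕ → ℝ} {s : ℝ} (hs : 0 < s) (hx : Tendsto x atTop (𝓝 s))
    (hy : Tendsto y atTop (𝓝 (2 * s)))
    (h : ∀ᶠ n in atTop, ((⌊-2 * Real.logb 2 (x n)⌋ : ℤ) : ZMod 4) =
      ((⌊-2 * Real.logb 2 (y n)⌋ : ℤ) : ZMod 4)) : False := by
  have h1 : Tendsto (fun n => -2 * Real.logb 2 (x n)) atTop (𝓝 (-2 * Real.logb 2 s)) :=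
    ((Real.continuousAt_logb (b := 2) hs.ne').tendsto.comp hx).const_mul _
  have h2 : Tendsto (fun n => -2 * Real.logb 2 (y n)) atTop (𝓝 (-2 * Real.logb 2 (2 * s))) :=
    ((Real.continuousAt_logb (b := 2) (by positivity)).tendsto.comp hy).const_mul _
  have e : -2 * Real.logb 2 (2 * s) = -2 * Real.logb 2 s - 2 := by
    rw [Real.logb_mul (by norm_num) hs.ne', Real.logb_self_eq_one (by norm_num)]
    ring
  rw [e] at h2
  have h3 := floor_ev h1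
  have h4 := floor_ev h2
  have e2 : ⌊-2 * Real.logb 2 s - 2⌋ = ⌊-2 * Real.logb 2 s⌋ - 2 := by
    have := Int.floor_sub_intCast (-2 * Real.logb 2 s) 2
    push_cast at this
    exact this
  rw [e2] at h4
  obtain ⟨n, hn, hn3, hn4⟩ := (h.and (h3.and h4)).exists
  rw [ZMod.intCast_eq_intCast_iff] at hn
  unfold Int.ModEq at hn
  push_cast at hn
  omega

end Pool.Agent.H78.DP
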