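import Pool.Agent.H78.DP.SeqB

set_option autoImplicit false

/-!
The colouring and the proof that no sequence is monochromatic.
-/

open Filter Topology

namespace Pool.Agent.H78.DP

open Classical in
/-- the colouring (given the two-colouring `χ` of the forest) -/
noncomputable def col (χ : ℕ → Bool) (z : ℕ) : Bool × Bool × ZMod 4 × ZMod 4 × Bool × Bool :=
  (decide (IsP2 z), decide (1 / 4 ≤ tt z ∧ tt z < 3 / 4),
    ((⌊-2 * Real.logb 2 (tt z)⌋ : ℤ) : ZMod 4), ((⌊-2 * Real.logb 2 (1 - tt z)⌋ : ℤ) : ZMod 4),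
    decide (Near z (2 ^ padicValNat 2 z)), χ z)

structure Same (x y : ℕ) (χ : ℕ → Bool) : Prop where
  p2 : IsP2 x ↔ IsP2 y
  mid : (1 / 4 ≤ tt x ∧ tt x < 3 / 4) ↔ (1 / 4 ≤ tt y ∧ tt y < 3 / 4)
  k : ((⌊-2 * Real.logb 2 (tt x)⌋ : ℤ) : ZMod 4) = ((⌊-2 * Real.logb 2 (tt y)⌋ : ℤ) : ZMod 4)
  k' : ((⌊-2 * Real.logb 2 (1 - tt x)⌋ : ℤ) : ZMod 4) =
    ((⌊-2 * Real.logb 2 (1 - tt y)⌋ : ℤ) : ZMod 4)
  near : Near x (2 ^ padicValNat 2 x) ↔ Near y (2 ^ padicValNat 2 y)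
  chi : χ x = χ y

lemma same_of_col {χ : ℕ → Bool} {x y : ℕ} (h : col χ x = col χ y) : Same x y χ := by
  unfold col at h
  simp only [Prod.mk.injEq] at h
  obtain ⟨h1, h2, h3, h4, h5, h6⟩ := h
  exact ⟨decide_eq_decide.mp h1, decide_eq_decide.mp h2, h3, h4, decide_eq_decide.mp h5, h6⟩

structure Good (χ : ℕ → Bool) (a : ℕ → ℕ) : Prop where
  mono : StrictMono a
  pos : ∀ n, 0 < a n
  np : ∀ n, ¬ IsP2 (a n)
  dp : ∀ n m, n < m → ¬ IsP2 (a m - a n)
  same : ∀ n m n' m', n < m → n' < m' → Same (a m - a n) (a n' * a m') χ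

lemma Good.comp {χ : ℕ → Bool} {a : ℕ → ℕ} (h : Good χ a) {φ : ℕ → ℕ} (hφ : StrictMono φ) :
    Good χ (fun n => a (φ n)) where
  mono := h.mono.comp hφ
  pos _ := h.pos _
  np _ := h.np _
  dp _ _ hnm := h.dp _ _ (hφ hnm)
  same _ _ _ _ h1 h2 := h.same _ _ _ _ (hφ h1) (hφ h2)

lemma isP2_of_dvd {x y : ℕ} (h : IsP2 y) (hxy : x ∣ y) : IsP2 x := by
  obtain ⟨k, rfl⟩ := h
  obtain ⟨i, _, hi⟩ := (Nat.dvd_prime_pow Nat.prime_two).mp hxy
  exact ⟨i, hi⟩

lemma p2_diff {i j k : ℕ} (h : 2 ^ j - 2 ^ i = 2 ^ k) (hij : i < j) : j = i + 1 := by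
  obtain ⟨d, rfl⟩ := Nat.exists_eq_add_of_lt hij
  have h1 : 2 ^ (i + d + 1) = 2 ^ i + 2 ^ k := by
    have h2 : 2 ^ i < 2 ^ (i + d + 1) := Nat.pow_lt_pow_right (by norm_num) hij
    omega
  have h3 : 2 ^ k = 2 ^ i * (2 * 2 ^ d - 1) := by
    have h4 : 2 ^ (i + d + 1) = 2 ^ i * (2 * 2 ^ d - 1) + 2 ^ i := by
      obtain ⟨e, he⟩ : ∃ e, 2 * 2 ^ d = e + 1 := ⟨2 * 2 ^ d - 1, by
        have : 0 < 2 ^ d := by positivity
        omega⟩
      rw [he, Nat.add_sub_cancel]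
      have : 2 ^ (i + d + 1) = 2 ^ i * (2 * 2 ^ d) := by ring
      rw [this, he]
      ring
    omega
  have h5 : IsP2 (2 * 2 ^ d - 1) := isP2_of_dvd ⟨k, h3.symm⟩ (Dvd.intro_left _ rfl)
  obtain ⟨l, hl⟩ := h5
  have hd : 0 < 2 ^ d := by positivity
  rcases Nat.eq_zero_or_pos l with rfl | hl0
  · have h6 : 2 ^ d = 1 := by
      rw [pow_zero] at hl
      omega
    rcases Nat.eq_zero_or_pos d with rfl | hd0
    · rfl
    · exfalso
      have := Nat.one_lt_two_pow hd0.ne'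
      omega
  · exfalso
    obtain ⟨l', rfl⟩ := Nat.exists_eq_succ_of_ne_zero hl0.ne'
    have : 2 ^ (l' + 1) = 2 * 2 ^ l' := by ring
    rw [Nat.succ_eq_add_one, this] at hl
    omega

/-- the products are not powers of two -/
lemma prods_np {a : ℕ → ℕ} (hmono : StrictMono a)
    (h : ∀ n m n' m', n < m → n' < m' → (IsP2 (a m - a n) ↔ IsP2 (a n' * a m'))) :
    ∀ n m, n < m → ¬ IsP2 (a n * a m) := by
  intro n m hnm hP
  have hall : ∀ n' m', n' < m' → IsP2 (a n' * a m') := by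
    intro n' m' h'
    exact (h n m n' m' hnm h').mp ((h n m n m hnm hnm).mpr hP)
  have hd : ∀ n' m', n' < m' → IsP2 (a m' - a n') := by
    intro n' m' h'
    exact (h n' m' n m h' hnm).mpr hP
  obtain ⟨i, hi⟩ := isP2_of_dvd (hall 0 1 (by norm_num)) (Dvd.intro _ rfl)
  obtain ⟨j, hj⟩ := isP2_of_dvd (hall 1 2 (by norm_num)) (Dvd.intro _ rfl)
  obtain ⟨k, hk⟩ := isP2_of_dvd (hall 2 3 (by norm_num)) (Dvd.intro _ rfl)
  have h01 : a 0 < a 1 := hmono (by norm_num)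
  have h12 : a 1 < a 2 := hmono (by norm_num)
  obtain ⟨x, hx⟩ := hd 0 1 (by norm_num)
  obtain ⟨y, hy⟩ := hd 1 2 (by norm_num)
  obtain ⟨z, hz⟩ := hd 0 2 (by norm_num)
  rw [hi, hj] at h01 hx
  rw [hj, hk] at h12 hy
  rw [hi, hk] at hz
  have hij : i < j := (Nat.pow_lt_pow_iff_right (by norm_num)).mp h01
  have hjk : j < k := (Nat.pow_lt_pow_iff_right (by norm_num)).mp h12
  have e1 := p2_diff hx hij
  have e2 := p2_diff hy hjk
  have e3 := p2_diff hz (hij.trans hjk)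
  omega

lemma exists_good {χ : ℕ → Bool} {a : ℕ → ℕ} (hmono : StrictMono a) (hpos : 0 < a 0)
    (hcol : ∀ n m n' m', n < m → n' < m' → col χ (a m - a n) = col χ (a n' * a m')) :
    ∃ b : ℕ → ℕ, Good χ b := by
  have hsame : ∀ n m n' m', n < m → n' < m' → Same (a m - a n) (a n' * a m') χ :=
    fun n m n' m' h h' => same_of_col (hcol n m n' m' h h')
  have hP := prods_np hmono (fun n m n' m' h h' => (hsame n m n' m' h h').p2)
  have hD : ∀ n m, n < m → ¬ IsP2 (a m - a n) := fun n m h h' =>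
    hP n m h ((hsame n m n m h h).p2.mp h')
  have hpos' : ∀ n, 0 < a n := fun n => lt_of_lt_of_le hpos (hmono.monotone (Nat.zero_le n))
  obtain ⟨N, hN⟩ : ∃ N, ∀ n, N ≤ n → ¬ IsP2 (a n) := by
    by_cases hc : ∃ j, IsP2 (a j)
    · obtain ⟨j, i, hj⟩ := hc
      refine ⟨j + 1, ?_⟩
      rintro n hn ⟨i', hi'⟩
      apply hP j n (by omega)
      exact ⟨i + i', by rw [hj, hi', pow_add]⟩
    · exact ⟨0, fun n _ h => hc ⟨n, h⟩⟩
  have hφ : StrictMono (fun n : ℕ => n + N) := fun x y h => by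
    simp only
    omega
  exact ⟨fun n => a (n + N), hmono.comp hφ, fun n => hpos' _, fun n => hN _ (by omega),
    fun n m h => hD _ _ (hφ h), fun n m n' m' h h' => hsame _ _ _ _ (hφ h) (hφ h')⟩

/-- the limit of `tt (a n)` is `0` or `1` -/
lemma limit_zero_one {χ : ℕ → Bool} {a : ℕ → ℕ} (h : Good χ a) {t : ℝ} (h0 : 0 ≤ t) (h1 : t ≤ 1)
    (hlim : Tendsto (fun n => tt (a n)) atTop (𝓝 t)) : t = 0 ∨ t = 1 := by
  by_contra hc
  push Not at hc
  have ht0 : 0 < t := lt_of_le_of_ne h0 (Ne.symm hc.1)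
  have ht1 : t < 1 := lt_of_le_of_ne h1 hc.2
  have hD := tendsto_diff h.mono ht0 ht1 hlim
  have hs : ∀ᶠ n in atTop, Same (a n - a 0) (a n * a (n + 1)) χ := by
    filter_upwards [eventually_gt_atTop 0] with n hn
    exact h.same 0 n n (n + 1) hn (by omega)
  rcases lt_trichotomy t (1 / 2) with ht | ht | ht
  · have hP := tendsto_prod_lt h.pos ht hlim
    exact sep ht0 hD hP (hs.mono fun n hn => hn.k)
  · have hlim' := hlim.comp (tendsto_add_atTop_nat 1)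
    have h5 : Tendsto (fun n => tt (a n) + tt (a (n + 1))) atTop (𝓝 (t + t)) := hlim.add hlim'
    obtain ⟨n, hn, hn1, hn2, hn3, hn4⟩ := (hs.and ((hD.eventually
      (gt_mem_nhds (show t < 3 / 4 by linarith))).and ((hD.eventually
      (lt_mem_nhds (show 1 / 4 < t by linarith))).and ((h5.eventually
      (gt_mem_nhds (show t + t < 5 / 4 by linarith))).and (h5.eventually
      (lt_mem_nhds (show 3 / 4 < t + t by linarith))))))).exists
    have h6 := hn.mid.mp ⟨hn2.le, hn1⟩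
    rcases lt_or_ge (tt (a n) + tt (a (n + 1))) 1 with h7 | h7
    · rw [tt_mul_lt (h.pos n) (h.pos (n + 1)) h7] at h6
      linarith [h6.2]
    · rw [tt_mul_ge (h.pos n) (h.pos (n + 1)) h7] at h6
      linarith [h6.1]
  · have hP := tendsto_prod_gt h.pos ht hlim
    have hD' := hD.const_sub 1
    have hP' := hP.const_sub 1
    have e : 1 - (2 * t - 1) = 2 * (1 - t) := by ring
    rw [e] at hP'
    exact sep (by linarith) hD' hP' (hs.mono fun n hn => hn.k')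

/-- the two-adic valuations are bounded -/
lemma val_bdd {χ : ℕ → Bool} {a : ℕ → ℕ} (h : Good χ a)
    (hnear : ∀ N, ∀ᶠ n in atTop, Near (a n) N) :
    ∃ V, ∀ n, padicValNat 2 (a n) ≤ V := by
  by_contra hc
  push Not at hc
  have hgt : ∀ᶠ n in atTop, 4 * a 0 * 2 ^ padicValNat 2 (a 0) ≤ a n :=
    h.mono.tendsto_atTop.eventually_ge_atTop _
  have hev := (hnear (2 * 2 ^ padicValNat 2 (a 0))).and ((hnear (8 * a 0)).and
    (hgt.and (eventually_gt_atTop 0)))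
  obtain ⟨M, hM⟩ := eventually_atTop.mp hev
  -- a term with large index and large valuation
  obtain ⟨n, hn⟩ := hc (padicValNat 2 (a 0) + 8 * a 0 + ∑ j ∈ Finset.range M,
    padicValNat 2 (a j))
  have hnM : M ≤ n := by
    by_contra hlt
    push Not at hlt
    have := Finset.single_le_sum (f := fun j => padicValNat 2 (a j)) (fun _ _ => Nat.zero_le _)
      (Finset.mem_range.mpr hlt)
    omega
  obtain ⟨h1, h2, h3, h4⟩ := hM n hnM
  have hlt : a 0 < a n := h.mono h4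
  have hD : Near (a n - a 0) (2 ^ padicValNat 2 (a n - a 0)) := by
    rw [pv_sub (h.pos 0) hlt (by omega)]
    exact near_sub (Nat.one_le_two_pow) hlt.le h1 h3
  have hP := (h.same 0 n 0 n h4 h4).near.mp hD
  refine not_near_mul (h.pos 0) (h.np 0) h2 ?_ hP
  have h5 : padicValNat 2 (a n) ≤ padicValNat 2 (a 0 * a n) := by
    have : Fact (Nat.Prime 2) := ⟨Nat.prime_two⟩
    rw [padicValNat.mul (h.pos 0).ne' (h.pos n).ne']
    omega
  have h6 : padicValNat 2 (a 0 * a n) < 2 ^ padicValNat 2 (a 0 * a n) := Nat.lt_two_pow_self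
  omega

/-- no monochromatic sequence -/
theorem main (χ : ℕ → Bool) (hχ : ∀ a w z, E a w z → χ w ≠ χ z) {a : ℕ → ℕ}
    (hmono : StrictMono a) (hpos : 0 < a 0)
    (hcol : ∀ n m n' m', n < m → n' < m' → col χ (a m - a n) = col χ (a n' * a m')) :
    False := by
  obtain ⟨b, hb⟩ := exists_good hmono hpos hcol
  obtain ⟨t, ht, φ, hφ, hlim⟩ := (isCompact_Icc (a := (0 : ℝ)) (b := 1)).tendsto_subseq
    (x := fun n => tt (b n)) (fun n => ⟨tt_nonneg _, (tt_lt _).le⟩)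
  have hc := hb.comp hφ
  obtain ⟨c, rfl⟩ : ∃ c : ℕ → ℕ, c = fun n => b (φ n) := ⟨_, rfl⟩
  have ht01 := limit_zero_one hc ht.1 ht.2 hlim
  have hnear := fun N => ev_near hc.pos ht01 hlim N
  obtain ⟨V, hV⟩ := val_bdd hc hnear
  -- infinitely many indices with the same valuation
  obtain ⟨v, hv⟩ : ∃ v, ∃ᶠ n in atTop, padicValNat 2 (b (φ n)) = v := by
    by_contra hcon
    push Not at hcon
    have h1 : ∀ᶠ n in atTop, ∀ v ∈ Finset.range (V + 1), padicValNat 2 (b (φ n)) ≠ v := by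
      rw [Filter.eventually_all_finset]
      intro v _
      exact hcon v
    obtain ⟨n, hn⟩ := h1.exists
    exact hn _ (Finset.mem_range.mpr (Nat.lt_succ_of_le (hV n))) rfl
  obtain ⟨n, hn⟩ := hv.exists
  have hgt : ∀ᶠ m in atTop, 4 * b (φ n) * (b (φ n)) ^ 12 ≤ b (φ m) :=
    hc.mono.tendsto_atTop.eventually_ge_atTop _
  obtain ⟨m, hm, hm1, hm2, hm3⟩ := (hv.and_eventually ((hnear (2 * (b (φ n)) ^ 12)).and
    (hgt.and (eventually_gt_atTop n)))).exists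
  have hlt : b (φ n) < b (φ m) := hc.mono hm3
  have hE : E (b (φ n)) (b (φ m) - b (φ n)) (b (φ n) * b (φ m)) := by
    refine ⟨hc.pos n, hc.np n, by omega, hc.dp n m hm3, ?_, ?_, ?_⟩
    · exact near_sub (Nat.one_le_pow _ _ (hc.pos n)) hlt.le hm1 hm2
    · exact val_of_eq (hc.pos n) hlt (hn.trans hm.symm)
    · rw [Nat.sub_add_cancel hlt.le]
  exact hχ _ _ _ hE (hc.same n m n m hm3 hm3).chi

end Pool.Agent.H78.DP
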