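import Pool.Agent.H78.DP.Frame

set_option autoImplicit false

/-!
States of a frame: the current minimum.
-/

namespace Pool.Agent.H78.DP

/-- a down move never ends at a power of two times the base -/
lemma excl (u b : ℕ) (Y T : ℚ) (e v' : ℕ) (he : 0 < e)
    (hv : Y * (u + T) = e * (v' + e)) (hne : T ≠ b) (h1 : |T - b| ≤ 1 / 4)
    (h2 : |T - b| * (Y / e) ≤ 1 / 8) : ∀ k : ℤ, Y / e ≠ 2 ^ k := by
  intro k hk
  have he0 : (0 : ℚ) < e := by exact_mod_cast he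
  have hv2 : (v' : ℚ) + e = 2 ^ k * (u + T) := by
    rw [← hk, div_mul_eq_mul_div, hv]
    field_simp
  -- a nonzero integer of absolute value less than one
  have key : ∀ z : ℤ, |(z : ℚ)| ≤ 1 / 4 → z = 0 := by
    intro z hz
    by_contra h0
    have h3 : (1 : ℤ) ≤ |z| := Int.one_le_abs h0
    have h4 : (1 : ℚ) ≤ |(z : ℚ)| := by exact_mod_cast h3
    linarith
  rcases Int.eq_nat_or_neg k with ⟨n, rfl | rfl⟩
  · rw [zpow_natCast] at hk hv2
    have h3 : (((v' : ℤ) + e - 2 ^ n * u - 2 ^ n * b : ℤ) : ℚ) = 2 ^ n * (T - b) := by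
      push_cast
      linarith
    have h4 := key ((v' : ℤ) + e - 2 ^ n * u - 2 ^ n * b) (by
      rw [h3, abs_mul, abs_of_pos (by positivity), mul_comm, ← hk]
      linarith)
    rw [h4] at h3
    push_cast at h3
    have h5 : T - b = 0 := by
      rcases mul_eq_zero.mp h3.symm with h | h
      · exact absurd h (by positivity)
      · exact h
    exact hne (by linarith)
  · rw [zpow_neg, zpow_natCast] at hv2
    have h0 : (u : ℚ) + T = 2 ^ n * (v' + e) := by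
      rw [hv2]; field_simp
    have h3 : (((2 : ℤ) ^ n * (v' + e) - u - b : ℤ) : ℚ) = T - b := by
      push_cast
      linarith
    have h4 := key ((2 : ℤ) ^ n * (v' + e) - u - b) (by rw [h3]; exact h1)
    rw [h4] at h3
    push_cast at h3
    exact hne (by linarith)

/-- the state of the current minimum `m` of a frame with base `u`, first multiplier `b`;
`c` is the multiplier of the last down move to `m` (or `0` at the beginning) -/
structure St (u b : ℕ) (y τ : ℚ) (c m : ℕ) : Prop where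
  hm : (m : ℚ) = y * (u + τ)
  hm0 : 0 < m
  hmp : ¬ IsP2 m
  np : ∀ k : ℤ, y ≠ 2 ^ k
  alt : (c = 0 ∧ y = b ∧ τ = b) ∨
    (0 < c ∧ ¬ IsP2 c ∧ Near m (c ^ 12) ∧
      (∃ P Q : ℕ, 0 < P ∧ 0 < Q ∧ P ≤ b * c ∧ Q ≤ c ^ 2 ∧ y = P / Q) ∧
      (c : ℚ) ^ 12 ≤ 8 * c ^ 3 * y ∧ |τ - b + c / y| ≤ 1 / (8 * y))

lemma small_c {b c : ℕ} (hc : 3 ≤ c) {y : ℚ} {P Q : ℕ} (hQ : 0 < Q) (hP : P ≤ b * c)
    (hy : y = P / Q) (h : (c : ℚ) ^ 12 ≤ 8 * c ^ 3 * y) : c ^ 2 ≤ b ∧ (c : ℚ) ^ 9 ≤ 8 * y := by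
  have hc' : (3 : ℚ) ≤ c := by exact_mod_cast hc
  have hc0 : (0 : ℚ) < c := by linarith
  have hQ' : (1 : ℚ) ≤ Q := by exact_mod_cast hQ
  have hP' : (P : ℚ) ≤ b * c := by exact_mod_cast hP
  have h1 : (c : ℚ) ^ 9 ≤ 8 * y := by
    have h2 : (c : ℚ) ^ 3 * c ^ 9 ≤ c ^ 3 * (8 * y) := by
      calc (c : ℚ) ^ 3 * c ^ 9 = c ^ 12 := by ring
        _ ≤ _ := h
        _ = _ := by ring
    exact le_of_mul_le_mul_left h2 (by positivity)
  refine ⟨?_, h1⟩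
  have hP0 : (0 : ℚ) ≤ P := Nat.cast_nonneg P
  have hyP : y ≤ P := by
    rw [hy, div_le_iff₀ (by linarith)]
    nlinarith
  have h3 : (c : ℚ) * c ^ 8 ≤ c * (8 * b) := by
    calc (c : ℚ) * c ^ 8 = c ^ 9 := by ring
      _ ≤ 8 * y := h1
      _ ≤ 8 * (b * c) := by linarith
      _ = _ := by ring
  have h4 : (c : ℚ) ^ 8 ≤ 8 * b := le_of_mul_le_mul_left h3 hc0
  have h5 : (3 : ℚ) ^ 6 ≤ (c : ℚ) ^ 6 := pow_le_pow_left₀ (by norm_num) hc' 6
  have h6 : (c : ℚ) ^ 2 ≤ b := by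
    have h7 : (c : ℚ) ^ 2 * 3 ^ 6 ≤ c ^ 2 * c ^ 6 := mul_le_mul_of_nonneg_left h5 (by positivity)
    have h8 : (c : ℚ) ^ 2 * c ^ 6 = c ^ 8 := by ring
    have h9 : (0 : ℚ) ≤ c ^ 2 := by positivity
    norm_num at h7
    nlinarith
  exact_mod_cast h6

/-- numerical consequences of a state -/
lemma St.bounds {u b c m : ℕ} {y τ : ℚ} (hb : 3 ≤ b) (h : St u b y τ c m) :
    c ≤ b ∧ 3 ≤ y ∧ |τ - b| ≤ 1 / 4 ∧ |τ - b| * y ≤ c + 1 / 8 ∧
    ∃ P Q : ℕ, 0 < P ∧ 0 < Q ∧ P ≤ b ^ 2 ∧ Q ≤ b ∧ y = P / Q ∧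
      (∀ M : ℕ, 1 ≤ M → c ≤ M → P ≤ b * M ∧ Q ≤ M ^ 2) := by
  have hb' : (3 : ℚ) ≤ b := by exact_mod_cast hb
  rcases h.alt with ⟨rfl, hy, hτ⟩ | ⟨hc0, hcp, _, ⟨P, Q, hP, hQ, hPb, hQc, hy⟩, hlow, hτ⟩
  · refine ⟨Nat.zero_le _, by rw [hy]; exact hb', by rw [hτ]; norm_num,
      by rw [hτ]; norm_num, b, 1, by omega, by norm_num, ?_, by omega, by rw [hy]; simp, ?_⟩
    · nlinarith
    · intro M hM _
      exact ⟨by nlinarith, by nlinarith⟩
  · have hc3 := three_le hc0 hcp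
    have hc3' : (3 : ℚ) ≤ c := by exact_mod_cast hc3
    obtain ⟨hcb, h9⟩ := small_c hc3 hQ hPb hy hlow
    have hcb' : c ≤ b := by nlinarith
    have h39 : (3 : ℚ) ^ 8 ≤ (c : ℚ) ^ 8 := pow_le_pow_left₀ (by norm_num) hc3' 8
    have hcy : (c : ℚ) * 3 ^ 8 ≤ 8 * y := by
      calc (c : ℚ) * 3 ^ 8 ≤ c * c ^ 8 := mul_le_mul_of_nonneg_left h39 (by linarith)
        _ = c ^ 9 := by ring
        _ ≤ _ := h9
    norm_num at hcy
    have hy3 : 3 ≤ y := by linarith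
    have hy0 : 0 < y := by linarith
    have hτy : |τ - b| * y ≤ c + 1 / 8 := by
      have h1 : τ - b = (τ - b + c / y) + -(c / y) := by ring
      have h2 : |τ - b| ≤ 1 / (8 * y) + c / y := by
        rw [h1]
        refine (abs_add_le _ _).trans ?_
        rw [abs_neg, abs_of_nonneg (by positivity : (0 : ℚ) ≤ c / y)]
        linarith
      calc |τ - b| * y ≤ (1 / (8 * y) + c / y) * y := mul_le_mul_of_nonneg_right h2 hy0.le
        _ = c + 1 / 8 := by field_simp; ring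
    refine ⟨hcb', hy3, ?_, hτy, P, Q, hP, hQ, ?_, hQc.trans hcb, hy, ?_⟩
    · by_contra hc
      push Not at hc
      nlinarith
    · nlinarith
    · intro M _ hcM
      exact ⟨hPb.trans (Nat.mul_le_mul_left b hcM), hQc.trans (Nat.pow_le_pow_left hcM 2)⟩

end Pool.Agent.H78.DP
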