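import Pool.Agent.H78.DP.State

set_option autoImplicit false

/-!
A current minimum which serves as a base of an inner frame is much larger than its base.
-/

namespace Pool.Agent.H78.DP

lemma tr1 (b B t : ℚ) (hb : 3 ≤ b) (hbB : b ≤ B) (ht : 0 ≤ t)
    (h : t * B ^ 12 ≤ 2 * b) : t * b ^ 11 ≤ 2 := by
  have hb0 : 0 < b := by linarith
  have h1 : b ^ 12 ≤ B ^ 12 := pow_le_pow_left₀ hb0.le hbB 12
  have h2 : t * b ^ 12 ≤ 2 * b := (mul_le_mul_of_nonneg_left h1 ht).trans h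
  have h3 : (t * b ^ 11) * b ≤ 2 * b := by
    calc (t * b ^ 11) * b = t * b ^ 12 := by ring
      _ ≤ _ := h2
  exact le_of_mul_le_mul_right h3 hb0

lemma tr2 (b t : ℚ) (hb : 3 ≤ b) (ht : 0 ≤ t) (h : t * b ^ 11 ≤ 2) : t * b ^ 2 ≤ 1 / 5000 := by
  have h1 : (3 : ℚ) ^ 9 ≤ b ^ 9 := pow_le_pow_left₀ (by norm_num) hb 9
  norm_num at h1
  have h2 : (t * b ^ 2) * b ^ 9 ≤ 2 := by
    calc (t * b ^ 2) * b ^ 9 = t * b ^ 11 := by ring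
      _ ≤ _ := h
  have h3 : 0 ≤ t * b ^ 2 := by positivity
  have h4 : (t * b ^ 2) * 19683 ≤ 2 := (mul_le_mul_of_nonneg_left h1 h3).trans h2
  linarith

lemma tr3 (b t : ℚ) (hb : 3 ≤ b) (ht : 0 ≤ t) (h : t * b ^ 2 ≤ 1 / 5000) :
    t * b ≤ 1 / 5000 ∧ t ≤ 1 / 5000 := by
  have h1 : t * b ≤ t * b ^ 2 := by
    apply mul_le_mul_of_nonneg_left _ ht
    nlinarith
  have h2 : t ≤ t * b := by nlinarith
  constructor <;> linarith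

/-- `M ^ 12 ≤ 3 b ^ 2` gives `2 |β| ≤ 1 / M ^ 12` -/
lemma tr4 (b t M : ℚ) (hb : 3 ≤ b) (ht : 0 ≤ t) (h : t * b ^ 11 ≤ 2)
    (hM : M ^ 12 ≤ 3 * b ^ 2) : 2 * t * M ^ 12 ≤ 1 := by
  have h1 : (3 : ℚ) ^ 9 ≤ b ^ 9 := pow_le_pow_left₀ (by norm_num) hb 9
  norm_num at h1
  have h2 : 12 * b ^ 2 ≤ b ^ 11 := by
    calc 12 * b ^ 2 ≤ b ^ 9 * b ^ 2 := by
          apply mul_le_mul_of_nonneg_right _ (by positivity)
          linarith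
      _ = _ := by ring
  have h3 : 4 * M ^ 12 ≤ b ^ 11 := by linarith
  have h4 : t * (4 * M ^ 12) ≤ t * b ^ 11 := mul_le_mul_of_nonneg_left h3 ht
  linarith

lemma tr5 (x M : ℚ) (hM : 3 ≤ M) (hx : 0 ≤ x) (h : x * M ^ 12 ≤ 1) :
    x * M ^ 2 ≤ 1 / 5000 ∧ x ≤ 1 / 4 := by
  have h1 : (3 : ℚ) ^ 10 ≤ M ^ 10 := pow_le_pow_left₀ (by norm_num) hM 10
  norm_num at h1
  have h2 : (x * M ^ 2) * M ^ 10 ≤ 1 := by
    calc (x * M ^ 2) * M ^ 10 = x * M ^ 12 := by ring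
      _ ≤ _ := h
  have h3 : 0 ≤ x * M ^ 2 := by positivity
  have h4 : (x * M ^ 2) * 59049 ≤ 1 := (mul_le_mul_of_nonneg_left h1 h3).trans h2
  have h5 : x * 9 ≤ x * M ^ 2 := by
    apply mul_le_mul_of_nonneg_left _ hx
    nlinarith
  constructor <;> linarith

/-- case 1 of `core` gives the bound on `M` -/
lemma tr6 (b t x M P : ℚ) (hb : 3 ≤ b) (ht : 0 ≤ t) (hx : 0 ≤ x)
    (hP : P ≤ b ^ 2) (ht2 : t * b ^ 2 ≤ 1 / 5000) (hxM : x * M ^ 12 ≤ 1)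
    (h : 1 ≤ P * (t + 2 * x)) : M ^ 12 ≤ 3 * b ^ 2 := by
  have h1 : 1 ≤ b ^ 2 * (t + 2 * x) := h.trans (mul_le_mul_of_nonneg_right hP (by linarith))
  have h2 : 4999 / 5000 ≤ 2 * b ^ 2 * x := by linarith
  have h3 : 4999 / 5000 * M ^ 12 ≤ 2 * b ^ 2 * x * M ^ 12 := by
    apply mul_le_mul_of_nonneg_right h2
    positivity
  have h4 : 2 * b ^ 2 * x * M ^ 12 ≤ 2 * b ^ 2 := by
    calc 2 * b ^ 2 * x * M ^ 12 = 2 * b ^ 2 * (x * M ^ 12) := by ring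
      _ ≤ 2 * b ^ 2 * 1 := mul_le_mul_of_nonneg_left hxM (by positivity)
      _ = _ := by ring
  have h5 : 0 ≤ b ^ 2 := by positivity
  linarith

lemma tr7 (M b : ℕ) (hM : 3 ≤ M) (h : (M : ℚ) ^ 12 ≤ 3 * b ^ 2) : M ^ 3 ≤ b := by
  by_contra hc
  push Not at hc
  have hc' : (b : ℚ) < (M : ℚ) ^ 3 := by exact_mod_cast hc
  have hM' : (3 : ℚ) ≤ M := by exact_mod_cast hM
  have hb0 : (0 : ℚ) ≤ b := Nat.cast_nonneg b
  have h1 : (b : ℚ) ^ 2 < M ^ 6 := by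
    calc (b : ℚ) ^ 2 < (M ^ 3) ^ 2 := by
          apply pow_lt_pow_left₀ hc' hb0 (by norm_num)
      _ = _ := by ring
  have h2 : (3 : ℚ) ^ 6 ≤ (M : ℚ) ^ 6 := pow_le_pow_left₀ (by norm_num) hM' 6
  norm_num at h2
  have h3 : (M : ℚ) ^ 6 * 729 ≤ M ^ 12 := by
    calc (M : ℚ) ^ 6 * 729 ≤ M ^ 6 * M ^ 6 := mul_le_mul_of_nonneg_left h2 (by positivity)
      _ = _ := by ring
  linarith

/-- a current minimum that is a base of an inner frame with precision `M` -/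
lemma transfer {u B b c m M : ℕ} {y τ : ℚ} (hB : Base u B b) (hS : St u b y τ c m)
    (hM : 3 ≤ M) (hcM : c ≤ M) (hn : Near m (M ^ 12)) :
    (M : ℚ) ^ 12 ≤ 3 * b ^ 2 ∧ 3 / 10 * (M : ℚ) ^ 10 ≤ y := by
  obtain ⟨hcb, hy3, hT, _, P, Q, hP, hQ, hPb, hQb, hy, hPQ⟩ := hS.bounds hB.b3
  obtain ⟨hPM, hQM⟩ := hPQ M (by omega) hcM
  obtain ⟨L, β, hβ, hβB⟩ := hB.beta τ hT
  obtain ⟨s, hs⟩ := hn
  have hb3 : (3 : ℚ) ≤ b := by exact_mod_cast hB.b3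
  have hbB : (b : ℚ) ≤ B := by exact_mod_cast hB.hbB
  have hM3 : (3 : ℚ) ≤ M := by exact_mod_cast hM
  have hPb' : (P : ℚ) ≤ b ^ 2 := by exact_mod_cast hPb
  have hQb' : (Q : ℚ) ≤ b := by exact_mod_cast hQb
  have hQM' : (Q : ℚ) ≤ M ^ 2 := by exact_mod_cast hQM
  have hP' : (0 : ℚ) < P := by exact_mod_cast hP
  have hQ' : (0 : ℚ) < Q := by exact_mod_cast hQ
  have hs0 : (0 : ℚ) < 2 ^ s := by positivity
  have hL0 : (0 : ℚ) < 2 ^ L := by positivity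
  have hy0 : 0 < y := by linarith
  have ht0 : 0 ≤ |β| := abs_nonneg β
  obtain ⟨α, hα, hαM⟩ : ∃ α : ℚ, (m : ℚ) = 2 ^ s * (1 + α) ∧ |α| * (M : ℚ) ^ 12 ≤ 1 := by
    refine ⟨((m : ℚ) - 2 ^ s) / 2 ^ s, by field_simp; ring, ?_⟩
    rw [abs_div, abs_of_pos hs0, div_mul_eq_mul_div, div_le_one hs0]
    push_cast at hs
    exact hs
  have hx0 : 0 ≤ |α| := abs_nonneg α
  have hb11 := tr1 b B |β| hb3 hbB ht0 hβB
  have hb2 := tr2 b |β| hb3 ht0 hb11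
  obtain ⟨hb1, hb0⟩ := tr3 b |β| hb3 ht0 hb2
  obtain ⟨hx2, hx4⟩ := tr5 |α| M hM3 hx0 hαM
  have h9 : y * (2 ^ L * (1 + β)) = 2 ^ s * (1 + α) := by
    rw [← hα, ← hβ, hS.hm]
  have heq : (Q : ℚ) * 2 ^ s * (1 + α) = P * 2 ^ L * (1 + β) := by
    rw [hy] at h9
    have h3 : (Q : ℚ) * (P / Q * (2 ^ L * (1 + β))) = P * 2 ^ L * (1 + β) := by
      field_simp
    rw [← h3, h9]; ring
  have hne' : (Q : ℚ) * 2 ^ s ≠ P * 2 ^ L := by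
    intro h0
    apply hS.np ((s : ℤ) - L)
    rw [hy, zpow_sub₀ (by norm_num), zpow_natCast, zpow_natCast]
    rw [div_eq_div_iff (by positivity) hL0.ne']
    linarith
  rcases core P Q s L hP hQ α β hx4 (by linarith) heq hne' with
    ⟨_, h1, h2⟩ | ⟨_, h1⟩
  · have hM12 := tr6 b |β| |α| M P hb3 ht0 hx0 hPb' hb2 hαM h1
    refine ⟨hM12, ?_⟩
    have h4 := tr4 b |β| M hb3 ht0 hb11 hM12
    apply ineq4 y (2 ^ L) (2 ^ s) α β (M ^ 10) hL0 hs0 hy0 hx4 (by linarith) h9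
    have h8 : (0 : ℚ) ≤ 2 ^ s * (2 * |β| + |α|) := by positivity
    calc (2 : ℚ) ^ L * M ^ 10 ≤ (Q * 2 ^ s * (2 * |β| + |α|)) * M ^ 10 :=
          mul_le_mul_of_nonneg_right h2 (by positivity)
      _ = Q * (2 ^ s * (2 * |β| + |α|) * M ^ 10) := by ring
      _ ≤ M ^ 2 * (2 ^ s * (2 * |β| + |α|) * M ^ 10) :=
          mul_le_mul_of_nonneg_right hQM' (by positivity)
      _ = 2 ^ s * (2 * |β| * M ^ 12 + |α| * M ^ 12) := by ring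
      _ ≤ 2 ^ s * 2 := mul_le_mul_of_nonneg_left (by linarith) hs0.le
      _ = 2 * 2 ^ s := by ring
  · exfalso
    have h2 : (Q : ℚ) * |β| ≤ b * |β| := mul_le_mul_of_nonneg_right hQb' ht0
    have h3 : (Q : ℚ) * |α| ≤ M ^ 2 * |α| := mul_le_mul_of_nonneg_right hQM' hx0
    linarith

end Pool.Agent.H78.DP
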